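import Mathlib

/-!
# Spaces of size `ω₁` with a σ-locally countable base: definitions
-/

set_option autoImplicit false

namespace Pool.Agent.Helper72.SLC

open Set Topology Ordinal Cardinal

/-! ### The topological notions of the problem -/

/-- A family of subsets of `X` is locally countable if every point has a neighbourhood meeting
only countably many members of the family. -/
def LocallyCountableFamily {X : Type} [TopologicalSpace X] (𝒰 : Set (Set X)) : Prop :=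
  ∀ x : X, ∃ O ∈ 𝓝 x, {W ∈ 𝒰 | (W ∩ O).Nonempty}.Countable

/-- `X` has a base which is a countable union of locally countable families. -/
def HasSigmaLocallyCountableBase (X : Type) [TopologicalSpace X] : Prop :=
  ∃ B : ℕ → Set (Set X), (∀ n, LocallyCountableFamily (B n)) ∧
    TopologicalSpace.IsTopologicalBasis (⋃ n, B n)

/-- Every closed subset is a countable intersection of open sets. -/
def ClosedSetsGdelta (X : Type) [TopologicalSpace X] : Prop :=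
  ∀ F : Set X, IsClosed F → IsGδ F

/-- Every open cover has a point-finite open refinement. -/
def Metacompact (X : Type) [TopologicalSpace X] : Prop :=
  ∀ 𝒰 : Set (Set X), (∀ U ∈ 𝒰, IsOpen U) → ⋃₀ 𝒰 = Set.univ →
    ∃ 𝒱 : Set (Set X), (∀ V ∈ 𝒱, IsOpen V) ∧ ⋃₀ 𝒱 = Set.univ ∧ (∀ V ∈ 𝒱, ∃ U ∈ 𝒰, V ⊆ U) ∧
      ∀ x : X, {V ∈ 𝒱 | x ∈ V}.Finite

/-! ### The two axioms -/

/-- Compatibility of two conditions (a smaller condition is stronger). -/
def Compat {P : Type} [Preorder P] (p q : P) : Prop := ∃ r, r ≤ p ∧ r ≤ q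

/-- Every set of pairwise incompatible conditions is countable. -/
def CountableChainCondition (P : Type) [Preorder P] : Prop :=
  ∀ A : Set P, (∀ p ∈ A, ∀ q ∈ A, p ≠ q → ¬ Compat p q) → A.Countable

/-- A set of conditions is dense. -/
def DenseConds {P : Type} [Preorder P] (D : Set P) : Prop := ∀ p : P, ∃ q ∈ D, q ≤ p

/-- Filters of conditions. -/
def FilterConds {P : Type} [Preorder P] (G : Set P) : Prop :=
  G.Nonempty ∧ (∀ p ∈ G, ∀ q, p ≤ q → q ∈ G) ∧ ∀ p ∈ G, ∀ q ∈ G, ∃ r ∈ G, r ≤ p ∧ r ≤ q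

/-- Martin's axiom for `ℵ₁` dense sets. -/
def MartinAxiomAleph1 : Prop :=
  ∀ (P : Type) [Preorder P] [Nonempty P], CountableChainCondition P →
    ∀ 𝒟 : Set (Set P), #𝒟 ≤ ℵ₁ → (∀ D ∈ 𝒟, DenseConds D) →
      ∃ G : Set P, FilterConds G ∧ ∀ D ∈ 𝒟, (G ∩ D).Nonempty

/-- `C` is a closed subset of the ordinal `δ`. -/
def ClosedSubsetOf (δ : Ordinal.{0}) (C : Set Ordinal.{0}) : Prop :=
  (∀ ξ ∈ C, ξ < δ) ∧
    ∀ β < δ, β ≠ 0 → (∀ α < β, ∃ ξ ∈ C, α < ξ ∧ ξ < β) → β ∈ C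

/-- `E` is a closed unbounded subset of `ω₁`. -/
def ClubOmega1 (E : Set Ordinal.{0}) : Prop :=
  ClosedSubsetOf ω₁ E ∧ ∀ α < ω₁, ∃ ξ ∈ E, α < ξ

/-- Moore's principle Measuring. -/
def Measuring : Prop :=
  ∀ C : Ordinal.{0} → Set Ordinal.{0}, (∀ δ < ω₁, ClosedSubsetOf δ (C δ)) →
    ∃ E : Set Ordinal.{0}, ClubOmega1 E ∧ ∀ δ ∈ E, δ ≠ 0 →
      ∃ α < δ, (∀ ξ ∈ E, α < ξ → ξ < δ → ξ ∈ C δ) ∨ (∀ ξ ∈ E, α < ξ → ξ < δ → ξ ∉ C δ)

end Pool.Agent.Helper72.SLC
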