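import Pool.Agent.Helper72.SLCDefs

/-!
# Spaces of size `ω₁` with a σ-locally countable base: proofs

Under `MA_{ℵ₁}` and Measuring every such space is perfect and metacompact.
-/

set_option autoImplicit false

namespace Pool.Agent.Helper72.SLC

open Set Topology Ordinal Cardinal Filter

/-! ### Thinning -/

theorem thin_const_or_inj {ι α : Type*} (f : ι → α) (I : Set ι) (hI : ¬ I.Countable) :
    ∃ I' ⊆ I, ¬ I'.Countable ∧ ((∀ i ∈ I', ∀ j ∈ I', f i = f j) ∨ InjOn f I') := by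
  classical
  by_cases h : ∃ a, ¬ (I ∩ f ⁻¹' {a}).Countable
  · obtain ⟨a, ha⟩ := h
    refine ⟨_, inter_subset_left, ha, Or.inl fun i hi j hj => ?_⟩
    have h1 : f i = a := hi.2
    have h2 : f j = a := hj.2
    rw [h1, h2]
  · push Not at h
    obtain ⟨I', hI', hbij⟩ := SurjOn.exists_bijOn_subset (surjOn_image f I)
    refine ⟨I', hI', ?_, Or.inr hbij.injOn⟩
    intro hc
    apply hI
    have h1 : (f '' I).Countable := by
      rw [← hbij.image_eq]; exact hc.image f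
    have h2 : I ⊆ ⋃ a ∈ f '' I, (I ∩ f ⁻¹' {a}) := by
      intro i hi
      simp only [mem_iUnion]
      exact ⟨f i, mem_image_of_mem f hi, hi, rfl⟩
    exact (h1.biUnion fun a _ => h a).mono h2

theorem thin_const {ι α : Type*} (f : ι → α) (I : Set ι) (hI : ¬ I.Countable)
    (hf : (f '' I).Countable) :
    ∃ I' ⊆ I, ¬ I'.Countable ∧ (∀ i ∈ I', ∀ j ∈ I', f i = f j) := by
  obtain ⟨I', hI', hu, h | h⟩ := thin_const_or_inj f I hI
  · exact ⟨I', hI', hu, h⟩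
  · exfalso
    apply hu
    have h1 : (f '' I').Countable := hf.mono (image_mono hI')
    exact (countable_of_injective_of_countable_image h h1)

theorem exists_uncountable_indep {ι : Type*} (S : ι → ι → Prop) (hS : ∀ i j, S i j → S j i)
    (I : Set ι) (hI : ¬ I.Countable) (hc : ∀ i ∈ I, {j ∈ I | S i j}.Countable) :
    ∃ I' ⊆ I, ¬ I'.Countable ∧ ∀ i ∈ I', ∀ j ∈ I', i ≠ j → ¬ S i j := by
  classical
  obtain ⟨M, hM⟩ := zorn_subset {s : Set ι | s ⊆ I ∧ ∀ i ∈ s, ∀ j ∈ s, i ≠ j → ¬ S i j} (by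
    intro c hc1 hc2
    refine ⟨⋃₀ c, ⟨?_, ?_⟩, fun s hs => subset_sUnion_of_mem hs⟩
    · exact sUnion_subset fun s hs => (hc1 hs).1
    · rintro i ⟨s, hs, his⟩ j ⟨t, ht, hjt⟩ hij
      rcases hc2.total hs ht with h | h
      · exact (hc1 ht).2 i (h his) j hjt hij
      · exact (hc1 hs).2 i his j (h hjt) hij)
  refine ⟨M, hM.prop.1, ?_, hM.prop.2⟩
  intro hMc
  have h1 : ((⋃ i ∈ M, {j ∈ I | S i j}) ∪ M).Countable :=
    (hMc.biUnion fun i hi => hc i (hM.prop.1 hi)).union hMc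
  obtain ⟨γ, hγI, hγ⟩ : ∃ γ ∈ I, γ ∉ ((⋃ i ∈ M, {j ∈ I | S i j}) ∪ M) := by
    by_contra hcon
    push Not at hcon
    exact hI (h1.mono hcon)
  have hγM : γ ∉ M := fun h => hγ (Or.inr h)
  have hγS : ∀ i ∈ M, ¬ S i γ := by
    intro i hi hs
    apply hγ
    left
    simp only [mem_iUnion]
    exact ⟨i, hi, hγI, hs⟩
  have h2 : insert γ M ⊆ M := by
    apply hM.le_of_ge (y := insert γ M) ?_ (subset_insert γ M)
    refine ⟨insert_subset hγI hM.prop.1, ?_⟩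
    intro i hi j hj hij
    rcases hi with rfl | hi <;> rcases hj with rfl | hj
    · exact absurd rfl hij
    · exact fun h => hγS j hj (hS _ _ h)
    · exact hγS i hi
    · exact hM.prop.2 i hi j hj hij
  exact hγM (h2 (mem_insert γ M))

/-! ### Finite independent sets of tokens -/

/-- `s` is independent: no token of `s` lies in the set attached to a token of `s`. -/
def Indep {T : Type} (N : T → Set T) (s : Finset T) : Prop := ∀ τ ∈ s, ∀ σ ∈ s, τ ∉ N σ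

/-- Uncountable families of tokens can be thinned out to constant or disjoint ones. -/
def Thin {T : Type} (N : T → Set T) : Prop :=
  ∀ (ι : Type) (f : ι → T) (I : Set ι), ¬ I.Countable → ∃ I' ⊆ I, ¬ I'.Countable ∧
    ((∀ i ∈ I', ∀ j ∈ I', N (f i) = N (f j)) ∨
      (∀ i ∈ I', ∀ j ∈ I', i ≠ j → Disjoint (N (f i)) (N (f j))))

theorem thin_fin {ι T : Type} {N : T → Set T} (hN : Thin N) {m : ℕ} (e : ι → Fin m → T)
    (I : Set ι) (hI : ¬ I.Countable) :
    ∃ I' ⊆ I, ¬ I'.Countable ∧ ∀ j : Fin m,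
      ((∀ p ∈ I', ∀ q ∈ I', N (e p j) = N (e q j)) ∨
        (∀ p ∈ I', ∀ q ∈ I', p ≠ q → Disjoint (N (e p j)) (N (e q j)))) := by
  classical
  have key : ∀ J : Finset (Fin m), ∃ I' ⊆ I, ¬ I'.Countable ∧ ∀ j ∈ J,
      ((∀ p ∈ I', ∀ q ∈ I', N (e p j) = N (e q j)) ∨
        (∀ p ∈ I', ∀ q ∈ I', p ≠ q → Disjoint (N (e p j)) (N (e q j)))) := by
    intro J
    induction J using Finset.induction_on with
    | empty => exact ⟨I, subset_rfl, hI, by simp⟩
    | insert a s ha ih =>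
      obtain ⟨I₁, hI₁, hu₁, h₁⟩ := ih
      obtain ⟨I₂, hI₂, hu₂, h₂⟩ := hN ι (fun p => e p a) I₁ hu₁
      refine ⟨I₂, hI₂.trans hI₁, hu₂, ?_⟩
      intro j hj
      rcases Finset.mem_insert.1 hj with rfl | hj
      · exact h₂
      · rcases h₁ j hj with h | h
        · exact Or.inl fun p hp q hq => h p (hI₂ hp) q (hI₂ hq)
        · exact Or.inr fun p hp q hq => h p (hI₂ hp) q (hI₂ hq)
  obtain ⟨I', h1, h2, h3⟩ := key Finset.univ
  exact ⟨I', h1, h2, fun j => h3 j (Finset.mem_univ j)⟩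

theorem exists_free_pair {ι : Type} (D : ι → ι → Prop) (I : Set ι) (hI : ¬ I.Countable)
    (hD : ∀ p ∈ I, {q ∈ I | D p q}.Finite) :
    ∃ p ∈ I, ∃ q ∈ I, p ≠ q ∧ ¬ D p q ∧ ¬ D q p := by
  classical
  have hinf : I.Infinite := fun h => hI h.countable
  let u := hinf.natEmbedding
  have hc : ((⋃ n : ℕ, {q ∈ I | D (u n) q}) ∪ range (fun n => (u n : ι))).Countable :=
    (countable_iUnion fun n => (hD _ (u n).2).countable).union (countable_range _)
  obtain ⟨γ, hγI, hγ⟩ : ∃ γ ∈ I, γ ∉ ((⋃ n : ℕ, {q ∈ I | D (u n) q}) ∪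
      range (fun n => (u n : ι))) := by
    by_contra hcon
    push Not at hcon
    exact hI (hc.mono hcon)
  have h1 : ∃ n : ℕ, ¬ D γ (u n) := by
    by_contra hcon
    push Not at hcon
    have h2 : range (fun n => (u n : ι)) ⊆ {q ∈ I | D γ q} := by
      rintro _ ⟨n, rfl⟩
      exact ⟨(u n).2, hcon n⟩
    have h3 : (range (fun n => (u n : ι))).Infinite :=
      infinite_range_of_injective (Subtype.val_injective.comp u.injective)
    exact h3 ((hD γ hγI).subset h2)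
  obtain ⟨n, hn⟩ := h1
  refine ⟨γ, hγI, u n, (u n).2, ?_, hn, ?_⟩
  · intro h
    exact hγ (Or.inr ⟨n, h.symm⟩)
  · intro h
    apply hγ
    left
    simp only [mem_iUnion]
    exact ⟨n, hγI, h⟩

theorem ccc_indep {T : Type} {N : T → Set T} (hN : Thin N) :
    CountableChainCondition ({s : Finset T // Indep N s}ᵒᵈ) := by
  classical
  intro A hA
  by_contra hAc
  obtain ⟨A₁, hA₁, hu₁, hcard⟩ := thin_const
    (fun p : {s : Finset T // Indep N s}ᵒᵈ => (OrderDual.ofDual p).1.card) A hAc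
    ((Set.to_countable _))
  obtain ⟨p₀, hp₀⟩ : A₁.Nonempty := by
    rw [nonempty_iff_ne_empty]
    rintro rfl
    exact hu₁ countable_empty
  obtain ⟨m, hm⟩ : ∃ m, ∀ p : ↥A₁, (OrderDual.ofDual p.1).1.card = m :=
    ⟨_, fun p => hcard p.1 p.2 p₀ hp₀⟩
  have hex : ∀ p : ↥A₁, ∃ e : Fin m → T, ∀ τ, τ ∈ (OrderDual.ofDual p.1).1 ↔ ∃ i, e i = τ := by
    intro p
    let E := (OrderDual.ofDual p.1).1.equivFinOfCardEq (hm p)
    refine ⟨fun i => (E.symm i).1, fun τ => ⟨fun h => ⟨E ⟨τ, h⟩, by simp⟩, ?_⟩⟩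
    rintro ⟨i, rfl⟩
    exact (E.symm i).2
  choose e he using hex
  have huniv : ¬ (Set.univ : Set ↥A₁).Countable := by
    rw [countable_univ_iff]
    exact hu₁
  obtain ⟨I, -, huI, hI⟩ := thin_fin hN e Set.univ huniv
  have hind : ∀ p : ↥A₁, ∀ i j, e p i ∉ N (e p j) := by
    intro p i j
    exact (OrderDual.ofDual p.1).2 _ ((he p _).2 ⟨i, rfl⟩) _ ((he p _).2 ⟨j, rfl⟩)
  obtain ⟨p, hp, q, hq, hpq, h1, h2⟩ := exists_free_pair
    (fun p q : ↥A₁ => ∃ i j, e p i ∈ N (e q j)) I huI (by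
      intro p hp
      have h1 : {q ∈ I | ∃ i j, e p i ∈ N (e q j)} ⊆
          ⋃ i : Fin m, ⋃ j : Fin m, {q ∈ I | e p i ∈ N (e q j)} := by
        rintro q ⟨hq, i, j, h⟩
        simp only [mem_iUnion]
        exact ⟨i, j, hq, h⟩
      refine (finite_iUnion fun i => finite_iUnion fun j => ?_).subset h1
      rcases hI j with h | h
      · convert finite_empty
        rw [eq_empty_iff_forall_notMem]
        rintro q ⟨hq, hq2⟩
        rw [← h p hp q hq] at hq2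
        exact hind p i j hq2
      · apply Set.Subsingleton.finite
        rintro q ⟨hq, hq2⟩ r ⟨hr, hr2⟩
        by_contra hne
        exact (Set.disjoint_left.1 (h q hq r hr hne)) hq2 hr2)
  have hne : p.1 ≠ q.1 := fun h => hpq (Subtype.ext h)
  refine hA p.1 (hA₁ p.2) q.1 (hA₁ q.2) hne ?_
  have hunion : Indep N ((OrderDual.ofDual p.1).1 ∪ (OrderDual.ofDual q.1).1) := by
    intro τ hτ σ hσ hτσ
    rcases Finset.mem_union.1 hτ with h | h <;> rcases Finset.mem_union.1 hσ with h' | h'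
    · exact (OrderDual.ofDual p.1).2 τ h σ h' hτσ
    · obtain ⟨i, rfl⟩ := (he p _).1 h
      obtain ⟨j, rfl⟩ := (he q _).1 h'
      exact h1 ⟨i, j, hτσ⟩
    · obtain ⟨i, rfl⟩ := (he q _).1 h
      obtain ⟨j, rfl⟩ := (he p _).1 h'
      exact h2 ⟨i, j, hτσ⟩
    · exact (OrderDual.ofDual q.1).2 τ h σ h' hτσ
  refine ⟨OrderDual.toDual ⟨_, hunion⟩, ?_, ?_⟩
  · show (OrderDual.ofDual p.1).1 ⊆ _
    exact Finset.subset_union_left
  · show (OrderDual.ofDual q.1).1 ⊆ _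
    exact Finset.subset_union_right

theorem exists_generic (hMA : MartinAxiomAleph1) {T : Type} {N : T → Set T} (hN : Thin N)
    {J : Type} (hJ : #J ≤ ℵ₁) (D : J → Finset T → Prop)
    (hD : ∀ j, ∀ p : Finset T, Indep N p → ∃ q, p ⊆ q ∧ Indep N q ∧ D j q) :
    ∃ S : Set T, (∀ τ ∈ S, ∀ σ ∈ S, τ ∉ N σ) ∧ ∀ j, ∃ p : Finset T, D j p ∧ ∀ τ ∈ p, τ ∈ S := by
  classical
  have : Nonempty ({s : Finset T // Indep N s}ᵒᵈ) :=
    ⟨OrderDual.toDual ⟨∅, by intro τ hτ; simp at hτ⟩⟩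
  obtain ⟨G, hG, hGD⟩ := hMA ({s : Finset T // Indep N s}ᵒᵈ) (ccc_indep hN)
    (range fun j : J => {p : {s : Finset T // Indep N s}ᵒᵈ | D j (OrderDual.ofDual p).1})
    (mk_range_le.trans hJ) (by
      rintro _ ⟨j, rfl⟩ p
      obtain ⟨q, hq1, hq2, hq3⟩ := hD j (OrderDual.ofDual p).1 (OrderDual.ofDual p).2
      exact ⟨OrderDual.toDual ⟨q, hq2⟩, hq3, hq1⟩)
  refine ⟨{τ | ∃ p ∈ G, τ ∈ (OrderDual.ofDual p).1}, ?_, ?_⟩
  · rintro τ ⟨p, hp, hτ⟩ σ ⟨q, hq, hσ⟩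
    obtain ⟨r, hr, hrp, hrq⟩ := hG.2.2 p hp q hq
    have h1 : (OrderDual.ofDual p).1 ⊆ (OrderDual.ofDual r).1 := hrp
    have h2 : (OrderDual.ofDual q).1 ⊆ (OrderDual.ofDual r).1 := hrq
    exact (OrderDual.ofDual r).2 τ (h1 hτ) σ (h2 hσ)
  · intro j
    obtain ⟨p, hpG, hp⟩ := hGD _ ⟨j, rfl⟩
    exact ⟨(OrderDual.ofDual p).1, hp, fun τ hτ => ⟨p, hpG, hτ⟩⟩

/-- The token family of Cohen forcing. -/
def cohenN : ℕ × Bool → Set (ℕ × Bool) := fun σ => {(σ.1, !σ.2)}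

theorem thin_of_countable {T : Type} [Countable T] (N : T → Set T) : Thin N := by
  intro ι f I hI
  obtain ⟨I', h1, h2, h3⟩ := thin_const f I hI (Set.to_countable _)
  exact ⟨I', h1, h2, Or.inl fun i hi j hj => by rw [h3 i hi j hj]⟩

/-- `u` increases to `δ`. -/
def ConvTo (u : ℕ → Ordinal.{0}) (δ : Ordinal.{0}) : Prop :=
  (∀ t, u t < δ) ∧ ∀ α < δ, ∃ t, α < u t

theorem closedSubset_of_intervals {e : ℕ → Ordinal.{0}} (he : Monotone e) {δ : Ordinal.{0}}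
    (hδ : ConvTo e δ) (c : Set ℕ) :
    ClosedSubsetOf δ {ξ | ξ < δ ∧ ∃ k ∈ c, e k ≤ ξ ∧ ξ ≤ e (k + 1)} := by
  classical
  refine ⟨fun ξ hξ => hξ.1, ?_⟩
  intro β hβδ hβ0 hlim
  obtain ⟨K, hK⟩ := hδ.2 β hβδ
  by_contra hβ
  have hα : ((Finset.range K).filter (fun k => e (k + 1) < β)).sup (fun k => e (k + 1)) < β := by
    rw [Finset.sup_lt_iff (by simpa [pos_iff_ne_zero] using hβ0)]
    intro k hk
    exact (Finset.mem_filter.1 hk).2
  obtain ⟨ξ, ⟨hξδ, k, hkc, h1, h2⟩, hαξ, hξβ⟩ := hlim _ hα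
  have hkK : k < K := by
    by_contra hcon
    push Not at hcon
    exact absurd (((he hcon).trans h1).trans_lt hξβ) (not_lt.2 hK.le)
  by_cases h3 : e (k + 1) < β
  · have h4 : e (k + 1) ≤ ((Finset.range K).filter (fun k => e (k + 1) < β)).sup
        (fun k => e (k + 1)) :=
      Finset.le_sup (f := fun k => e (k + 1)) (Finset.mem_filter.2 ⟨Finset.mem_range.2 hkK, h3⟩)
    exact absurd (h2.trans h4) (not_le.2 hαξ)
  · exact hβ ⟨hβδ, k, hkc, h1.trans hξβ.le, not_lt.1 h3⟩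

theorem cohen_lemma (hMA : MartinAxiomAleph1) {Y : Type} (hY : #Y ≤ ℵ₁)
    (a : Y → ℕ → Ordinal.{0}) (hmono : ∀ y, Monotone (a y)) {δ : Ordinal.{0}}
    (hconv : ∀ y, ConvTo (a y) δ) {e : ℕ → Ordinal.{0}} (he : Monotone e) (heδ : ConvTo e δ) :
    ∃ c : Set ℕ, ∀ y N,
      (∃ t ≥ N, ∀ ξ, a y t ≤ ξ → ξ < a y (t + 1) → ∃ k ∈ c, e k ≤ ξ ∧ ξ ≤ e (k + 1)) ∧
      (∃ t ≥ N, ∀ ξ, a y t ≤ ξ → ξ < a y (t + 1) → ¬ ∃ k ∈ c, e k ≤ ξ ∧ ξ ≤ e (k + 1)) := by
  classical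
  have hJ : #(Y × Bool × ℕ) ≤ ℵ₁ := by
    rw [mk_prod, Cardinal.lift_id, Cardinal.lift_id]
    refine (mul_le_mul' hY (mk_le_aleph0.trans (aleph0_le_aleph 1))).trans ?_
    rw [mul_eq_self (aleph0_le_aleph 1)]
  obtain ⟨S, hS, hSD⟩ := exists_generic hMA (thin_of_countable cohenN) hJ
    (fun j p => ∃ t ≥ j.2.2, ∃ L M : ℕ, e L < a j.1 t ∧ a j.1 (t + 1) < e M ∧
      ∀ k, L ≤ k → k ≤ M → (k, j.2.1) ∈ p) (by
      rintro ⟨y, b, N⟩ p hp
      obtain ⟨L, hL⟩ : ∃ L, ∀ τ ∈ p, τ.1 < L := by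
        refine ⟨(p.image Prod.fst).sup id + 1, fun τ hτ => ?_⟩
        exact Nat.lt_succ_of_le (Finset.le_sup (f := id) (Finset.mem_image_of_mem _ hτ))
      obtain ⟨t₀, ht₀⟩ := (hconv y).2 (e L) (heδ.1 L)
      obtain ⟨M, hM⟩ := heδ.2 (a y (max N t₀ + 1)) ((hconv y).1 _)
      refine ⟨p ∪ (Finset.Icc L M).image (fun k => (k, b)), Finset.subset_union_left, ?_,
        max N t₀, le_max_left _ _, L, M, ht₀.trans_le (hmono y (le_max_right _ _)), hM, ?_⟩
      · intro τ hτ σ hσ hτσ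
        have hτσ' : τ = (σ.1, !σ.2) := hτσ
        rcases Finset.mem_union.1 hτ with h | h <;> rcases Finset.mem_union.1 hσ with h' | h'
        · exact hp τ h σ h' hτσ
        · obtain ⟨k, hk, rfl⟩ := Finset.mem_image.1 h'
          have := hL τ h
          rw [hτσ'] at this
          simp only at this
          have h2 := (Finset.mem_Icc.1 hk).1
          omega
        · obtain ⟨k, hk, rfl⟩ := Finset.mem_image.1 h
          have := hL σ h'
          have h2 := (Finset.mem_Icc.1 hk).1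
          have h3 : k = σ.1 := congrArg Prod.fst hτσ'
          omega
        · obtain ⟨k, hk, rfl⟩ := Finset.mem_image.1 h
          obtain ⟨k', hk', rfl⟩ := Finset.mem_image.1 h'
          have h3 : b = !b := congrArg Prod.snd hτσ'
          cases b <;> simp at h3
      · intro k h1 h2
        exact Finset.mem_union_right _ (Finset.mem_image.2 ⟨k, Finset.mem_Icc.2 ⟨h1, h2⟩, rfl⟩))
  refine ⟨{k | (k, true) ∈ S}, fun y N => ⟨?_, ?_⟩⟩
  · obtain ⟨p, ⟨t, ht, L, M, h1, h2, h3⟩, hpS⟩ := hSD (y, true, N)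
    refine ⟨t, ht, fun ξ hξ1 hξ2 => ?_⟩
    have hex : ∃ j, ξ < e j := ⟨M, hξ2.trans h2⟩
    have hj1 := Nat.find_spec hex
    have hjM : Nat.find hex ≤ M := Nat.find_min' hex (hξ2.trans h2)
    have hjL : L < Nat.find hex := by
      by_contra hcon
      push Not at hcon
      exact absurd (hj1.trans_le (he hcon)) (not_lt.2 (h1.le.trans hξ1))
    obtain ⟨k, hk⟩ : ∃ k, Nat.find hex = k + 1 := ⟨Nat.find hex - 1, by omega⟩
    have hk2 : ¬ ξ < e k := Nat.find_min hex (by omega)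
    rw [hk] at hj1
    refine ⟨k, hpS _ (h3 k (by omega) (by omega)), not_lt.1 hk2, hj1.le⟩
  · obtain ⟨p, ⟨t, ht, L, M, h1, h2, h3⟩, hpS⟩ := hSD (y, false, N)
    refine ⟨t, ht, fun ξ hξ1 hξ2 => ?_⟩
    rintro ⟨k, hkc, hk1, hk2⟩
    have hLk : L ≤ k := by
      by_contra hcon
      push Not at hcon
      exact absurd ((hk2.trans (he (show k + 1 ≤ L from hcon))).trans_lt h1) (not_lt.2 hξ1)
    have hkM : k ≤ M := by
      by_contra hcon
      push Not at hcon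
      exact absurd ((h2.trans_le (he hcon.le)).trans_le hk1) (not_lt.2 hξ2.le)
    exact hS _ hkc _ (hpS _ (h3 k hLk hkM)) rfl

theorem interval_principle (hMA : MartinAxiomAleph1) (hM : Measuring) {Y : Type} (hY : #Y ≤ ℵ₁)
    (a : Y → ℕ → Ordinal.{0}) (hmono : ∀ y, Monotone (a y)) (hlt : ∀ y t, a y t < ω₁) :
    ∃ h : Ordinal.{0} → Ordinal.{0}, (∀ α < ω₁, h α < ω₁) ∧
      ∀ y N, ∃ t ≥ N, a y (t + 1) ≤ h (a y t) := by
  classical
  have hC : ∀ δ : Ordinal.{0}, ∃ C : Set Ordinal.{0}, ClosedSubsetOf δ C ∧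
      ∀ y, ConvTo (a y) δ → ∀ N, (∃ t ≥ N, ∀ ξ, a y t ≤ ξ → ξ < a y (t + 1) → ξ ∈ C) ∧
        (∃ t ≥ N, ∀ ξ, a y t ≤ ξ → ξ < a y (t + 1) → ξ ∉ C) := by
    intro δ
    by_cases hy : ∃ y, ConvTo (a y) δ
    · obtain ⟨y₀, hy₀⟩ := hy
      obtain ⟨c, hc⟩ := cohen_lemma hMA (Y := {y // ConvTo (a y) δ}) ((mk_subtype_le _).trans hY)
        (fun y => a y.1) (fun y => hmono y.1) (fun y => y.2) (hmono y₀) hy₀
      refine ⟨_, closedSubset_of_intervals (hmono y₀) hy₀ c, ?_⟩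
      intro y hy N
      obtain ⟨⟨t, ht, h1⟩, ⟨s, hs, h2⟩⟩ := hc ⟨y, hy⟩ N
      refine ⟨⟨t, ht, fun ξ hξ1 hξ2 => ⟨hξ2.trans (hy.1 _), h1 ξ hξ1 hξ2⟩⟩,
        ⟨s, hs, fun ξ hξ1 hξ2 hξC => h2 ξ hξ1 hξ2 hξC.2⟩⟩
    · refine ⟨∅, ⟨by simp, ?_⟩, fun y h => absurd ⟨y, h⟩ hy⟩
      intro β _ hβ0 h
      obtain ⟨ξ, hξ, _⟩ := h 0 (by simpa [pos_iff_ne_zero] using hβ0)
      exact absurd hξ (by simp)
  choose C hC1 hC2 using hC
  obtain ⟨E, hE, hEC⟩ := hM C (fun δ _ => hC1 δ)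
  refine ⟨fun α => sInf {ξ ∈ E | α ≤ ξ}, ?_, ?_⟩
  · intro α hα
    obtain ⟨ξ, hξE, hξ⟩ := hE.2 α hα
    have h1 : sInf {ξ ∈ E | α ≤ ξ} ∈ {ξ ∈ E | α ≤ ξ} := csInf_mem ⟨ξ, hξE, hξ.le⟩
    exact hE.1.1 _ h1.1
  · intro y N
    have key : ∀ t, (∀ ξ ∈ E, a y t ≤ ξ → ξ < a y (t + 1) → False) →
        a y (t + 1) ≤ sInf {ξ ∈ E | a y t ≤ ξ} := by
      intro t ht
      obtain ⟨ξ, hξE, hξ⟩ := hE.2 (a y t) (hlt y t)
      refine le_csInf ⟨ξ, hξE, hξ.le⟩ ?_
      rintro η ⟨hη1, hη2⟩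
      by_contra hcon
      exact ht η hη1 hη2 (not_le.1 hcon)
    by_cases hA : ∃ t ≥ N, a y (t + 1) ≤ a y t
    · obtain ⟨t, ht, h1⟩ := hA
      refine ⟨t, ht, key t fun ξ _ h2 h3 => ?_⟩
      exact absurd (h2.trans_lt h3) (not_lt.2 h1)
    · push Not at hA
      have hlt2 : ∀ t, a y t < a y (max t N + 1) := fun t =>
        (hmono y (le_max_left t N)).trans_lt (hA _ (le_max_right t N))
      have hle : ∀ t, a y t ≤ ⨆ t, a y t := fun t => Ordinal.le_iSup (a y) t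
      have hδω : (⨆ t, a y t) < ω₁ := Ordinal.iSup_lt_omega_one (hlt y)
      have hconv : ConvTo (a y) (⨆ t, a y t) := by
        refine ⟨fun t => (hlt2 t).trans_le (hle _), fun α hα => ?_⟩
        exact (Ordinal.lt_iSup_iff).1 hα
      have hδ0 : (⨆ t, a y t) ≠ 0 := by
        intro h
        have := hconv.1 0
        rw [h] at this
        exact absurd this (by simp)
      by_cases hB : ∃ α < ⨆ t, a y t, ∀ ξ ∈ E, α < ξ → ξ < ⨆ t, a y t → False
      · obtain ⟨α, hα, h1⟩ := hB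
        obtain ⟨s, hs⟩ := hconv.2 α hα
        refine ⟨max N s, le_max_left _ _, key _ fun ξ hξ h2 h3 => ?_⟩
        exact h1 ξ hξ ((hs.trans_le (hmono y (le_max_right _ _))).trans_le h2)
          (h3.trans (hconv.1 _))
      · push Not at hB
        have hδE : (⨆ t, a y t) ∈ E := hE.1.2 _ hδω hδ0 (fun α hα => by
          obtain ⟨ξ, h1, h2, h3, -⟩ := hB α hα
          exact ⟨ξ, h1, h2, h3⟩)
        obtain ⟨α, hα, hor⟩ := hEC _ hδE hδ0
        obtain ⟨s, hs⟩ := hconv.2 α hα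
        rcases hor with h | h
        · obtain ⟨-, t, ht, h1⟩ := hC2 _ y hconv (max N s)
          refine ⟨t, (le_max_left _ _).trans ht, key _ fun ξ hξ h2 h3 => ?_⟩
          exact h1 ξ h2 h3 (h ξ hξ ((hs.trans_le (hmono y ((le_max_right _ _).trans ht))).trans_le h2)
            (h3.trans (hconv.1 _)))
        · obtain ⟨⟨t, ht, h1⟩, -⟩ := hC2 _ y hconv (max N s)
          refine ⟨t, (le_max_left _ _).trans ht, key _ fun ξ hξ h2 h3 => ?_⟩
          exact h ξ hξ ((hs.trans_le (hmono y ((le_max_right _ _).trans ht))).trans_le h2)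
            (h3.trans (hconv.1 _)) (h1 ξ h2 h3)

theorem countable_Iic_of_lt {β : Ordinal.{0}} (hβ : β < ω₁) : (Iic β).Countable := by
  have h1 : (Iio β).Countable := by
    rw [← le_aleph0_iff_set_countable, Cardinal.mk_Iio_ordinal]
    rw [lt_omega_iff_card_lt] at hβ
    have h2 : β.card ≤ ℵ₀ := lt_aleph_one_iff.1 hβ
    exact Cardinal.lift_le_aleph0.2 h2
  have h2 : Iic β = insert β (Iio β) := by
    ext x; simp [le_iff_eq_or_lt]
  rw [h2]
  exact h1.insert _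

theorem exists_rank {α : Type} (ℬ : Set α) (hℬ : #ℬ ≤ ℵ₁) :
    ∃ rk : α → Ordinal.{0}, (∀ W, rk W < ω₁) ∧ ∀ β < ω₁, {W ∈ ℬ | rk W ≤ β}.Countable := by
  classical
  have h1 : #ℬ ≤ #(ω₁ : Ordinal.{0}).ToType := by
    rw [mk_toType, card_omega]
    exact hℬ
  obtain ⟨f⟩ := (Cardinal.le_def _ _).1 h1
  refine ⟨fun W => if h : W ∈ ℬ then (ToType.toOrd (f ⟨W, h⟩)).1 else 0, ?_, ?_⟩
  · intro W
    by_cases h : W ∈ ℬ
    · simp only [h, dif_pos]
      exact (ToType.toOrd (f ⟨W, h⟩)).2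
    · simp only [h, dif_neg, not_false_eq_true]
      exact omega_pos 1
  · intro β hβ
    refine MapsTo.countable_of_injOn (f := fun W => if h : W ∈ ℬ then
      (ToType.toOrd (f ⟨W, h⟩)).1 else 0) (t := Iic β) ?_ ?_ (countable_Iic_of_lt hβ)
    · intro W hW
      exact hW.2
    · rintro W ⟨hW, -⟩ W' ⟨hW', -⟩ h
      simp only [hW, hW', dif_pos] at h
      have h2 := f.injective (ToType.mk.symm.injective (Subtype.ext h))
      exact congrArg Subtype.val h2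

theorem partialSups_congr' {u v : ℕ → Ordinal.{0}} {T : ℕ} (h : ∀ s ≤ T, u s = v s) :
    partialSups u T = partialSups v T := by
  apply le_antisymm
  · refine partialSups_le _ _ _ fun s hs => ?_
    rw [h s hs]
    exact le_partialSups_of_le v hs
  · refine partialSups_le _ _ _ fun s hs => ?_
    rw [← h s hs]
    exact le_partialSups_of_le u hs

/-- Local bases refining a σ-locally countable base. -/
theorem local_data {X : Type} [TopologicalSpace X] {B : ℕ → Set (Set X)}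
    (hloc : ∀ n, LocallyCountableFamily (B n))
    (hbase : TopologicalSpace.IsTopologicalBasis (⋃ n, B n)) :
    ∃ (w : X → ℕ → Set X) (G : X → ℕ → Set X) (m : X → ℕ → ℕ),
      (∀ y, range (w y) = {W ∈ ⋃ n, B n | y ∈ W}) ∧
      (∀ y t, y ∈ G y t) ∧ (∀ y t, G y t ∈ B (m y t)) ∧ (∀ y t, G y (t + 1) ⊆ G y t) ∧
      (∀ y t, {W ∈ B (m y t) | (W ∩ G y (t + 1)).Nonempty}.Countable) ∧
      (∀ y, ∀ U ∈ 𝓝 y, ∃ t, G y t ⊆ U) := by
  classical
  have hcount : ∀ y : X, {W ∈ ⋃ n, B n | y ∈ W}.Countable := by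
    intro y
    have h1 : {W ∈ ⋃ n, B n | y ∈ W} ⊆ ⋃ n, {W ∈ B n | y ∈ W} := by
      rintro W ⟨hW, hy⟩
      obtain ⟨n, hn⟩ := mem_iUnion.1 hW
      exact mem_iUnion.2 ⟨n, hn, hy⟩
    refine (countable_iUnion fun n => ?_).mono h1
    obtain ⟨O, hO, hc⟩ := hloc n y
    refine hc.mono ?_
    rintro W ⟨hW, hy⟩
    exact ⟨hW, y, hy, mem_of_mem_nhds hO⟩
  have hne : ∀ y : X, {W ∈ ⋃ n, B n | y ∈ W}.Nonempty := by
    intro y
    obtain ⟨W, hW, hy, -⟩ := hbase.mem_nhds_iff.1 (Filter.univ_mem : Set.univ ∈ 𝓝 y)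
    exact ⟨W, hW, hy⟩
  have hw : ∀ y : X, ∃ w : ℕ → Set X, range w = {W ∈ ⋃ n, B n | y ∈ W} := by
    intro y
    obtain ⟨w, hw⟩ := (hcount y).exists_eq_range (hne y)
    exact ⟨w, hw.symm⟩
  choose w hw using hw
  have hstep : ∀ (y : X) (t : ℕ) (s : {p : Set X × ℕ // y ∈ p.1 ∧ p.1 ∈ B p.2}),
      ∃ s' : {p : Set X × ℕ // y ∈ p.1 ∧ p.1 ∈ B p.2}, s'.1.1 ⊆ s.1.1 ∧ s'.1.1 ⊆ w y t ∧
        {W ∈ B s.1.2 | (W ∩ s'.1.1).Nonempty}.Countable := by
    intro y t s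
    obtain ⟨O, hO, hc⟩ := hloc s.1.2 y
    have h1 : s.1.1 ∈ 𝓝 y :=
      (hbase.isOpen (mem_iUnion.2 ⟨_, s.2.2⟩)).mem_nhds s.2.1
    have h2 : w y t ∈ {W ∈ ⋃ n, B n | y ∈ W} := by
      rw [← hw y]; exact mem_range_self t
    have h3 : w y t ∈ 𝓝 y := (hbase.isOpen h2.1).mem_nhds h2.2
    obtain ⟨W, hW, hy, hsub⟩ := hbase.mem_nhds_iff.1
      (Filter.inter_mem (Filter.inter_mem h1 h3) hO)
    obtain ⟨n, hn⟩ := mem_iUnion.1 hW
    refine ⟨⟨(W, n), hy, hn⟩, fun z hz => (hsub hz).1.1, fun z hz => (hsub hz).1.2, ?_⟩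
    refine hc.mono ?_
    rintro W' ⟨hW', z, hz1, hz2⟩
    exact ⟨hW', z, hz1, (hsub hz2).2⟩
  choose F hF1 hF2 hF3 using hstep
  have hinit : ∀ y : X, ∃ s : {p : Set X × ℕ // y ∈ p.1 ∧ p.1 ∈ B p.2}, True := by
    intro y
    obtain ⟨W, hW, hy⟩ := hne y
    obtain ⟨n, hn⟩ := mem_iUnion.1 hW
    exact ⟨⟨(W, n), hy, hn⟩, trivial⟩
  choose s0 _ using hinit
  let s : (y : X) → ℕ → {p : Set X × ℕ // y ∈ p.1 ∧ p.1 ∈ B p.2} :=
    fun y t => Nat.rec (s0 y) (fun t s => F y t s) t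
  refine ⟨w, fun y t => (s y t).1.1, fun y t => (s y t).1.2, hw, fun y t => (s y t).2.1,
    fun y t => (s y t).2.2, fun y t => hF1 y t (s y t), fun y t => hF3 y t (s y t), ?_⟩
  intro y U hU
  obtain ⟨W, hW, hy, hsub⟩ := hbase.mem_nhds_iff.1 hU
  have h1 : W ∈ range (w y) := by
    rw [hw y]; exact ⟨hW, hy⟩
  obtain ⟨t, rfl⟩ := h1
  exact ⟨t + 1, (hF2 y t (s y t)).trans hsub⟩

theorem main_thin {X : Type} {B : ℕ → Set (Set X)} {G : X → ℕ → Set X} {m : X → ℕ → ℕ}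
    (hGy : ∀ y t, y ∈ G y t) (hGB : ∀ y t, G y t ∈ B (m y t))
    (hanti : ∀ y t, G y (t + 1) ⊆ G y t)
    (hcnt : ∀ y t, {W ∈ B (m y t) | (W ∩ G y (t + 1)).Nonempty}.Countable)
    {rk : Set X → Ordinal.{0}} (hrk1 : ∀ W, rk W < ω₁)
    (hrk2 : ∀ β < ω₁, {W ∈ {W ∈ ⋃ n, B n | W.Nonempty} | rk W ≤ β}.Countable)
    {h : Ordinal.{0} → Ordinal.{0}} (hh : ∀ α < ω₁, h α < ω₁) (t : X → ℕ)
    (ht : ∀ y, partialSups (fun s => rk (G y s)) (t y + 1) ≤
      h (partialSups (fun s => rk (G y s)) (t y)))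
    {ι : Type} (f : ι → X) (I : Set ι) (hI : ¬ I.Countable) :
    ∃ I' ⊆ I, ¬ I'.Countable ∧
      ((∀ i ∈ I', ∀ j ∈ I', G (f i) (t (f i) + 1) = G (f j) (t (f j) + 1)) ∨
        (∀ i ∈ I', ∀ j ∈ I', i ≠ j →
          Disjoint (G (f i) (t (f i) + 1)) (G (f j) (t (f j) + 1)))) := by
  classical
  have hanti' : ∀ y, Antitone (G y) := fun y => antitone_nat_of_succ_le (hanti y)
  obtain ⟨I₁, hI₁, hu₁, ht₁⟩ := thin_const (fun i => t (f i)) I hI (Set.to_countable _)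
  obtain ⟨i₀, hi₀⟩ : I₁.Nonempty := by
    rw [nonempty_iff_ne_empty]; rintro rfl; exact hu₁ countable_empty
  obtain ⟨T, hT⟩ : ∃ T, ∀ i ∈ I₁, t (f i) = T := ⟨t (f i₀), fun i hi => ht₁ i hi i₀ hi₀⟩
  obtain ⟨I₂, hI₂, hu₂, hm₂⟩ := thin_const (fun i => fun s : Fin (T + 2) => m (f i) s) I₁ hu₁
    (Set.to_countable _)
  have hm : ∀ i ∈ I₂, ∀ j ∈ I₂, ∀ s ≤ T + 1, m (f i) s = m (f j) s := by
    intro i hi j hj s hs
    exact congrFun (hm₂ i hi j hj) ⟨s, by omega⟩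
  have key : ∀ n ≤ T + 1, ∃ I' ⊆ I₂, ¬ I'.Countable ∧
      ((∀ i ∈ I', ∀ j ∈ I', i ≠ j → Disjoint (G (f i) (T + 1)) (G (f j) (T + 1))) ∨
        (∀ s < n, ∀ i ∈ I', ∀ j ∈ I', G (f i) s = G (f j) s)) := by
    intro n
    induction n with
    | zero => exact fun _ => ⟨I₂, subset_rfl, hu₂, Or.inr (by intro s hs; omega)⟩
    | succ n ih =>
      intro hn
      obtain ⟨I', hI', hu', h1 | h1⟩ := ih (by omega)
      · exact ⟨I', hI', hu', Or.inl h1⟩
      · obtain ⟨I'', hI'', hu'', h2 | h2⟩ := thin_const_or_inj (fun i => G (f i) n) I' hu'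
        · refine ⟨I'', hI''.trans hI', hu'', Or.inr ?_⟩
          intro s hs i hi j hj
          rcases Nat.lt_succ_iff_lt_or_eq.1 hs with h3 | h3
          · exact h1 s h3 i (hI'' hi) j (hI'' hj)
          · subst h3
            exact h2 i hi j hj
        · obtain ⟨I''', hI''', hu''', h3⟩ := exists_uncountable_indep
            (fun i j => ¬ Disjoint (G (f i) (n + 1)) (G (f j) (n + 1)))
            (fun i j hij hd => hij hd.symm) I'' hu'' (by
              intro i hi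
              refine MapsTo.countable_of_injOn (f := fun j => G (f j) n)
                (t := {W ∈ B (m (f i) n) | (W ∩ G (f i) (n + 1)).Nonempty}) ?_ ?_
                (hcnt (f i) n)
              · rintro j ⟨hj, hij⟩
                refine ⟨?_, ?_⟩
                · rw [hm i (hI' (hI'' hi)) j (hI' (hI'' hj)) n (by omega)]
                  exact hGB (f j) n
                · obtain ⟨z, hz1, hz2⟩ := Set.not_disjoint_iff.1 hij
                  exact ⟨z, hanti _ _ hz2, hz1⟩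
              · exact h2.mono fun j hj => hj.1)
          refine ⟨I''', hI'''.trans (hI''.trans hI'), hu''', Or.inl ?_⟩
          intro i hi j hj hij
          have h4 := h3 i hi j hj hij
          rw [not_not] at h4
          exact h4.mono (hanti' _ (by omega)) (hanti' _ (by omega))
  obtain ⟨I₃, hI₃, hu₃, h3⟩ := key (T + 1) le_rfl
  have hT3 : ∀ i ∈ I₃, t (f i) = T := fun i hi => hT i (hI₂ (hI₃ hi))
  rcases h3 with h3 | h3
  · refine ⟨I₃, hI₃.trans (hI₂.trans hI₁), hu₃, Or.inr ?_⟩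
    intro i hi j hj hij
    rw [hT3 i hi, hT3 j hj]
    exact h3 i hi j hj hij
  · obtain ⟨i₁, hi₁⟩ : I₃.Nonempty := by
      rw [nonempty_iff_ne_empty]; rintro rfl; exact hu₃ countable_empty
    have hβ : partialSups (fun s => rk (G (f i₁) s)) T < ω₁ := by
      obtain ⟨s, -, hs⟩ : ∃ s ∈ Finset.range (T + 1),
          partialSups (fun s => rk (G (f i₁) s)) T = rk (G (f i₁) s) := by
        rw [partialSups_eq_sup_range]
        exact Finset.exists_mem_eq_sup _ ⟨0, by simp⟩ _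
      rw [hs]
      exact hrk1 _
    have h4 : ∀ i ∈ I₃, rk (G (f i) (T + 1)) ≤ h (partialSups (fun s => rk (G (f i₁) s)) T) := by
      intro i hi
      have h5 : partialSups (fun s => rk (G (f i) s)) T =
          partialSups (fun s => rk (G (f i₁) s)) T :=
        partialSups_congr' fun s hs => by
          show rk (G (f i) s) = rk (G (f i₁) s)
          rw [h3 s (by omega) i hi i₁ hi₁]
      rw [← h5]
      have h6 := ht (f i)
      rw [hT3 i hi] at h6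
      exact (le_partialSups (fun s => rk (G (f i) s)) (T + 1)).trans h6
    obtain ⟨I₄, hI₄, hu₄, h5⟩ := thin_const (fun i => G (f i) (T + 1)) I₃ hu₃ (by
      refine (hrk2 _ (hh _ hβ)).mono ?_
      rintro _ ⟨i, hi, rfl⟩
      exact ⟨⟨mem_iUnion.2 ⟨_, hGB _ _⟩, ⟨f i, hGy _ _⟩⟩, h4 i hi⟩)
    refine ⟨I₄, hI₄.trans (hI₃.trans (hI₂.trans hI₁)), hu₄, Or.inl ?_⟩
    intro i hi j hj
    rw [hT3 i (hI₄ hi), hT3 j (hI₄ hj)]
    exact h5 i hi j hj

/-- A good system of neighbourhoods. -/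
def GoodV {X : Type} [TopologicalSpace X] (V : ℕ → X → Set X) : Prop :=
  (∀ k y, IsOpen (V k y)) ∧ (∀ k y, y ∈ V k y) ∧
  (∀ y, ∀ U ∈ 𝓝 y, ∃ K, ∀ k ≥ K, V k y ⊆ U) ∧
  ∀ k, ∀ (ι : Type) (f : ι → X) (I : Set ι), ¬ I.Countable → ∃ I' ⊆ I, ¬ I'.Countable ∧
    ((∀ i ∈ I', ∀ j ∈ I', V k (f i) = V k (f j)) ∨
      (∀ i ∈ I', ∀ j ∈ I', i ≠ j → Disjoint (V k (f i)) (V k (f j))))

theorem exists_goodV (hMA : MartinAxiomAleph1) (hM : Measuring) {X : Type} [TopologicalSpace X]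
    (hX : #X ≤ ℵ₁) (hB : HasSigmaLocallyCountableBase X) : ∃ V : ℕ → X → Set X, GoodV V := by
  classical
  obtain ⟨B, hloc, hbase⟩ := hB
  obtain ⟨w, G, m, hw, hGy, hGB, hanti, hcnt, hnb⟩ := local_data hloc hbase
  have hℬ : #{W ∈ ⋃ n, B n | W.Nonempty} ≤ ℵ₁ := by
    have h1 : {W ∈ ⋃ n, B n | W.Nonempty} ⊆ range (fun p : X × ℕ => w p.1 p.2) := by
      rintro W ⟨hW, y, hy⟩
      have h2 : W ∈ range (w y) := by rw [hw y]; exact ⟨hW, hy⟩
      obtain ⟨n, rfl⟩ := h2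
      exact ⟨(y, n), rfl⟩
    refine (mk_le_mk_of_subset h1).trans (mk_range_le.trans ?_)
    rw [mk_prod, Cardinal.lift_id, Cardinal.lift_id]
    refine (mul_le_mul' hX (mk_le_aleph0.trans (aleph0_le_aleph 1))).trans ?_
    rw [mul_eq_self (aleph0_le_aleph 1)]
  obtain ⟨rk, hrk1, hrk2⟩ := exists_rank _ hℬ
  have hsup : ∀ y T, partialSups (fun s => rk (G y s)) T < ω₁ := by
    intro y T
    obtain ⟨s, -, hs⟩ : ∃ s ∈ Finset.range (T + 1),
        partialSups (fun s => rk (G y s)) T = rk (G y s) := by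
      rw [partialSups_eq_sup_range]
      exact Finset.exists_mem_eq_sup _ ⟨0, by simp⟩ _
    rw [hs]
    exact hrk1 _
  obtain ⟨h, hh, hht⟩ := interval_principle hMA hM hX
    (fun y t => partialSups (fun s => rk (G y s)) t) (fun y => (partialSups _).monotone) hsup
  choose t ht1 ht2 using hht
  have hanti' : ∀ y, Antitone (G y) := fun y => antitone_nat_of_succ_le (hanti y)
  refine ⟨fun k y => G y (t y k + 1), fun k y => ?_, fun k y => hGy _ _, ?_, ?_⟩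
  · exact hbase.isOpen (mem_iUnion.2 ⟨_, hGB _ _⟩)
  · intro y U hU
    obtain ⟨K, hK⟩ := hnb y U hU
    refine ⟨K, fun k hk => (hanti' y ?_).trans hK⟩
    have := ht1 y k
    omega
  · intro k ι f I hI
    exact main_thin hGy hGB hanti hcnt hrk1 hrk2 hh (fun y => t y k) (fun y => ht2 y k) f I hI

section Q1

variable {X : Type} [TopologicalSpace X] (V : ℕ → X → Set X) (F : Set X)

/-- Tokens for the first poset. -/
abbrev Tok1 : Type := (↥Fᶜ × ℕ) ⊕ (↥F × ℕ × ℕ)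

/-- Conflicts for the first poset. -/
def N1 : Tok1 F → Set (Tok1 F)
  | Sum.inl _ => ∅
  | Sum.inr (y, n, k) => {τ | ∃ x : ↥Fᶜ, τ = Sum.inl (x, n) ∧ x.1 ∈ V k y.1}

/-- The point of a token. -/
def pt1 : Tok1 F → X
  | Sum.inl (x, _) => x.1
  | Sum.inr (y, _, _) => y.1

/-- The numerical type of a token. -/
def ty1 : Tok1 F → Option (ℕ × ℕ)
  | Sum.inl _ => none
  | Sum.inr (_, n, k) => some (n, k)

theorem thin_N1 (hV : GoodV V) : Thin (N1 V F) := by
  classical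
  intro ι f I hI
  obtain ⟨I₁, hI₁, hu₁, h1⟩ := thin_const (fun i => ty1 F (f i)) I hI (Set.to_countable _)
  obtain ⟨i₀, hi₀⟩ : I₁.Nonempty := by
    rw [nonempty_iff_ne_empty]; rintro rfl; exact hu₁ countable_empty
  cases hc : ty1 F (f i₀) with
  | none =>
    have h2 : ∀ i ∈ I₁, N1 V F (f i) = ∅ := by
      intro i hi
      have h3 : ty1 F (f i) = none := (h1 i hi i₀ hi₀).trans hc
      rcases hfi : f i with x | ⟨y, n, k⟩
      · rfl
      · rw [hfi] at h3; simp [ty1] at h3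
    exact ⟨I₁, hI₁, hu₁, Or.inl fun i hi j hj => by rw [h2 i hi, h2 j hj]⟩
  | some nk =>
    obtain ⟨n, k⟩ := nk
    have h2 : ∀ i ∈ I₁, N1 V F (f i) =
        {τ | ∃ x : ↥Fᶜ, τ = Sum.inl (x, n) ∧ x.1 ∈ V k (pt1 F (f i))} := by
      intro i hi
      have h3 : ty1 F (f i) = some (n, k) := (h1 i hi i₀ hi₀).trans hc
      rcases hfi : f i with x | ⟨y, n', k'⟩
      · rw [hfi] at h3; simp [ty1] at h3
      · rw [hfi] at h3
        simp only [ty1, Option.some.injEq, Prod.mk.injEq] at h3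
        obtain ⟨rfl, rfl⟩ := h3
        rfl
    obtain ⟨I₂, hI₂, hu₂, h3⟩ := hV.2.2.2 k ι (fun i => pt1 F (f i)) I₁ hu₁
    refine ⟨I₂, hI₂.trans hI₁, hu₂, ?_⟩
    rcases h3 with h3 | h3
    · left
      intro i hi j hj
      rw [h2 i (hI₂ hi), h2 j (hI₂ hj), h3 i hi j hj]
    · right
      intro i hi j hj hij
      rw [h2 i (hI₂ hi), h2 j (hI₂ hj), Set.disjoint_left]
      rintro _ ⟨x, rfl, hx⟩ ⟨x', hxx', hx'⟩
      have h4 : x = x' := by
        have := Sum.inl_injective hxx'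
        exact congrArg Prod.fst this
      subst h4
      exact Set.disjoint_left.1 (h3 i hi j hj hij) hx hx'

theorem allGdelta (hMA : MartinAxiomAleph1) [T1Space X] (hX : #X ≤ ℵ₁) (hV : GoodV V) :
    IsGδ F := by
  classical
  have hJ : #(↥Fᶜ ⊕ (↥F × ℕ)) ≤ ℵ₁ := by
    rw [mk_sum, mk_prod]
    simp only [Cardinal.lift_id]
    have h1 : #↥Fᶜ ≤ ℵ₁ := (mk_subtype_le _).trans hX
    have h2 : #↥F ≤ ℵ₁ := (mk_subtype_le _).trans hX
    have h3 : #↥F * #ℕ ≤ ℵ₁ := by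
      refine (mul_le_mul' h2 (mk_le_aleph0.trans (aleph0_le_aleph 1))).trans ?_
      rw [mul_eq_self (aleph0_le_aleph 1)]
    refine (add_le_add h1 h3).trans ?_
    rw [add_eq_self (aleph0_le_aleph 1)]
  obtain ⟨S, hS, hSD⟩ := exists_generic hMA (thin_N1 V F hV) hJ
    (fun j p => match j with
      | Sum.inl x => ∃ n, (Sum.inl (x, n) : Tok1 F) ∈ p
      | Sum.inr (y, n) => ∃ k, (Sum.inr (y, n, k) : Tok1 F) ∈ p) (by
      rintro (x | ⟨y, n⟩) p hp
      · obtain ⟨n, hn⟩ : ∃ n, ∀ y k, (Sum.inr (y, n, k) : Tok1 F) ∉ p := by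
          let g : Tok1 F → ℕ := fun τ => match τ with
            | Sum.inl _ => 0
            | Sum.inr (_, n, _) => n
          refine ⟨(p.image g).sup id + 1, fun y k hmem => ?_⟩
          have h1 : g (Sum.inr (y, (p.image g).sup id + 1, k)) ≤ (p.image g).sup id :=
            Finset.le_sup (f := id) (Finset.mem_image_of_mem g hmem)
          simp only [g] at h1
          omega
        refine ⟨insert (Sum.inl (x, n)) p, Finset.subset_insert _ _, ?_, n,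
          Finset.mem_insert_self _ _⟩
        intro τ hτ σ hσ hτσ
        rcases Finset.mem_insert.1 hσ with rfl | hσ
        · exact hτσ
        · rcases Finset.mem_insert.1 hτ with rfl | hτ
          · rcases σ with z | ⟨y, n', k⟩
            · exact hτσ
            · obtain ⟨x', h1, h2⟩ := hτσ
              have h3 := Sum.inl_injective h1
              have h4 : n = n' := congrArg Prod.snd h3
              subst h4
              exact hn y k hσ
          · exact hp τ hτ σ hσ hτσ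
      · have hev : ∀ᶠ k in atTop, ∀ τ ∈ p, ∀ x : ↥Fᶜ, ∀ n', τ = Sum.inl (x, n') →
            x.1 ∉ V k y.1 := by
          rw [Finset.eventually_all]
          intro τ _
          rcases τ with ⟨x, n'⟩ | τ
          · have hne : x.1 ≠ y.1 := fun h => x.2 (h ▸ y.2)
            obtain ⟨K, hK⟩ := hV.2.2.1 y.1 ({x.1}ᶜ)
              (isOpen_compl_singleton.mem_nhds (by simpa using hne.symm))
            filter_upwards [eventually_ge_atTop K] with k hk x' n'' hx'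
            have h3 := Sum.inl_injective hx'
            have h4 : x = x' := congrArg Prod.fst h3
            subst h4
            intro hmem
            exact hK k hk hmem rfl
          · exact Eventually.of_forall fun k x n' h => by simp at h
        obtain ⟨k, hk⟩ := hev.exists
        refine ⟨insert (Sum.inr (y, n, k)) p, Finset.subset_insert _ _, ?_, k,
          Finset.mem_insert_self _ _⟩
        intro τ hτ σ hσ hτσ
        rcases Finset.mem_insert.1 hσ with rfl | hσ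
        · obtain ⟨x', h1, h2⟩ := hτσ
          rcases Finset.mem_insert.1 hτ with rfl | hτ
          · simp at h1
          · exact hk τ hτ x' n h1 h2
        · rcases Finset.mem_insert.1 hτ with rfl | hτ
          · rcases σ with z | ⟨y', n', k'⟩
            · exact hτσ
            · obtain ⟨x', h1, h2⟩ := hτσ
              simp at h1
          · exact hp τ hτ σ hσ hτσ)
  have hF : F = ⋂ n : ℕ, (closure {x : X | ∃ h : x ∈ Fᶜ, (Sum.inl (⟨x, h⟩, n) : Tok1 F) ∈ S})ᶜ := by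
    ext z
    simp only [mem_iInter, mem_compl_iff]
    constructor
    · intro hz n hcl
      obtain ⟨p, ⟨k, hk⟩, hpS⟩ := hSD (Sum.inr (⟨z, hz⟩, n))
      obtain ⟨x, hx1, hxF, hx2⟩ := mem_closure_iff.1 hcl _ (hV.1 k z) (hV.2.1 k z)
      exact hS _ hx2 _ (hpS _ hk) ⟨⟨x, hxF⟩, rfl, hx1⟩
    · intro h
      by_contra hz
      obtain ⟨p, ⟨n, hn⟩, hpS⟩ := hSD (Sum.inl ⟨z, hz⟩)
      exact h n (subset_closure ⟨hz, hpS _ hn⟩)
  rw [hF]
  exact IsGδ.iInter_of_isOpen fun n => isClosed_closure.isOpen_compl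

end Q1

section Q2

variable {X : Type} [TopologicalSpace X] (V : ℕ → X → Set X) (k₀ : X → ℕ)

/-- Tokens for the second poset. -/
abbrev Tok2 : Type := {τ : X × ℕ × Finset (Set X) // k₀ τ.1 ≤ τ.2.1 ∧ V τ.2.1 τ.1 ∈ τ.2.2}

/-- Conflicts for the second poset. -/
def N2 : Tok2 V k₀ → Set (Tok2 V k₀) := fun σ =>
  {τ | τ.1.1 ∈ V σ.1.2.1 σ.1.1 ∧ V σ.1.2.1 σ.1.1 ∉ τ.1.2.2}

theorem thin_N2 (hV : GoodV V) : Thin (N2 V k₀) := by
  classical
  intro ι f I hI
  obtain ⟨I₁, hI₁, hu₁, h1⟩ := thin_const (fun i => (f i).1.2.1) I hI (Set.to_countable _)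
  obtain ⟨i₀, hi₀⟩ : I₁.Nonempty := by
    rw [nonempty_iff_ne_empty]; rintro rfl; exact hu₁ countable_empty
  obtain ⟨k, hk⟩ : ∃ k, ∀ i ∈ I₁, (f i).1.2.1 = k := ⟨_, fun i hi => h1 i hi i₀ hi₀⟩
  obtain ⟨I₂, hI₂, hu₂, h3⟩ := hV.2.2.2 k ι (fun i => (f i).1.1) I₁ hu₁
  refine ⟨I₂, hI₂.trans hI₁, hu₂, ?_⟩
  rcases h3 with h3 | h3
  · left
    intro i hi j hj
    unfold N2
    rw [hk i (hI₂ hi), hk j (hI₂ hj), h3 i hi j hj]
  · right
    intro i hi j hj hij
    unfold N2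
    rw [hk i (hI₂ hi), hk j (hI₂ hj), Set.disjoint_left]
    rintro τ ⟨h4, -⟩ ⟨h5, -⟩
    exact Set.disjoint_left.1 (h3 i hi j hj hij) h4 h5

theorem metacompact_of_goodV (hMA : MartinAxiomAleph1) [T1Space X] (hX : #X ≤ ℵ₁)
    {V : ℕ → X → Set X} (hV : GoodV V) : Metacompact X := by
  classical
  intro 𝒰 h𝒰 hcov
  have hex : ∀ y : X, ∃ U ∈ 𝒰, y ∈ U := by
    intro y
    have : y ∈ ⋃₀ 𝒰 := by rw [hcov]; trivial
    exact this
  choose U hU hyU using hex
  have hex2 : ∀ y : X, ∃ K, ∀ k ≥ K, V k y ⊆ U y := fun y =>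
    hV.2.2.1 y _ ((h𝒰 _ (hU y)).mem_nhds (hyU y))
  choose k₀ hk₀ using hex2
  obtain ⟨S, hS, hSD⟩ := exists_generic hMA (thin_N2 V k₀ hV) hX
    (fun y p => ∃ τ ∈ p, τ.1.1 = y) (by
      intro y p hp
      by_cases hy : ∃ τ ∈ p, τ.1.1 = y
      · exact ⟨p, subset_rfl, hp, hy⟩
      · push Not at hy
        have hev : ∀ᶠ k in atTop, ∀ τ ∈ p, τ.1.1 ∉ V k y := by
          rw [Finset.eventually_all]
          intro τ hτ
          obtain ⟨K, hK⟩ := hV.2.2.1 y ({τ.1.1}ᶜ)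
            (isOpen_compl_singleton.mem_nhds (by simpa using (hy τ hτ).symm))
          filter_upwards [eventually_ge_atTop K] with k hk hmem
          exact hK k hk hmem rfl
        obtain ⟨k, hk, hkk⟩ := (hev.and (eventually_ge_atTop (k₀ y))).exists
        let Φ : Finset (Set X) := insert (V k y) (p.image fun τ => V τ.1.2.1 τ.1.1)
        refine ⟨insert ⟨(y, k, Φ), hkk, Finset.mem_insert_self _ _⟩ p,
          Finset.subset_insert _ _, ?_, _, Finset.mem_insert_self _ _, rfl⟩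
        intro τ hτ σ hσ hτσ
        rcases Finset.mem_insert.1 hσ with rfl | hσ
        · rcases Finset.mem_insert.1 hτ with rfl | hτ
          · exact hτσ.2 (Finset.mem_insert_self _ _)
          · exact hk τ hτ hτσ.1
        · rcases Finset.mem_insert.1 hτ with rfl | hτ
          · exact hτσ.2 (Finset.mem_insert_of_mem
              (Finset.mem_image_of_mem (fun τ : Tok2 V k₀ => V τ.1.2.1 τ.1.1) hσ))
          · exact hp τ hτ σ hσ hτσ)
  refine ⟨{W | ∃ τ ∈ S, W = V τ.1.2.1 τ.1.1}, ?_, ?_, ?_, ?_⟩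
  · rintro _ ⟨τ, -, rfl⟩
    exact hV.1 _ _
  · rw [Set.eq_univ_iff_forall]
    intro y
    obtain ⟨p, ⟨τ, hτ, rfl⟩, hpS⟩ := hSD y
    exact ⟨_, ⟨τ, hpS τ hτ, rfl⟩, hV.2.1 _ _⟩
  · rintro _ ⟨τ, -, rfl⟩
    exact ⟨U τ.1.1, hU _, hk₀ _ _ τ.2.1⟩
  · intro x
    obtain ⟨p, ⟨τ, hτ, rfl⟩, hpS⟩ := hSD x
    refine (Finset.finite_toSet τ.1.2.2).subset ?_
    rintro _ ⟨⟨σ, hσ, rfl⟩, hx⟩
    by_contra hcon
    exact hS τ (hpS τ hτ) σ hσ ⟨hx, hcon⟩

end Q2

theorem perfect_main (hMA : MartinAxiomAleph1) (hM : Measuring) {X : Type} [TopologicalSpace X]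
    [T1Space X] (hX : #X ≤ ℵ₁) (hB : HasSigmaLocallyCountableBase X) (F : Set X) : IsGδ F := by
  obtain ⟨V, hV⟩ := exists_goodV hMA hM hX hB
  exact allGdelta V F hMA hX hV

theorem metacompact_main (hMA : MartinAxiomAleph1) (hM : Measuring) {X : Type}
    [TopologicalSpace X] [T1Space X] (hX : #X ≤ ℵ₁) (hB : HasSigmaLocallyCountableBase X) :
    Metacompact X := by
  obtain ⟨V, hV⟩ := exists_goodV hMA hM hX hB
  exact metacompact_of_goodV hMA hX hV

/-! ### Sanity checks -/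

/-- Discrete spaces have a σ-locally countable base. -/
theorem hasSLCB_of_discrete (X : Type) [TopologicalSpace X] [DiscreteTopology X] :
    HasSigmaLocallyCountableBase X := by
  refine ⟨fun _ => {s | ∃ x : X, s = {x}}, fun _ x => ⟨{x}, by simp, ?_⟩, ?_⟩
  · refine (countable_singleton ({x} : Set X)).mono ?_
    rintro _ ⟨⟨y, rfl⟩, z, hz1, hz2⟩
    have h1 : z = y := hz1
    have h2 : z = x := hz2
    rw [← h1, h2]
    rfl
  · rw [iUnion_const]
    exact isTopologicalBasis_singletons X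

/-- Second countable spaces have a σ-locally countable base. -/
theorem hasSLCB_of_secondCountable (X : Type) [TopologicalSpace X] [SecondCountableTopology X] :
    HasSigmaLocallyCountableBase X := by
  refine ⟨fun _ => TopologicalSpace.countableBasis X, fun _ x => ⟨Set.univ, Filter.univ_mem, ?_⟩, ?_⟩
  · exact (TopologicalSpace.countable_countableBasis X).mono fun W hW => hW.1
  · rw [iUnion_const]
    exact TopologicalSpace.isBasis_countableBasis X

end Pool.Agent.Helper72.SLC
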