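import Mathlib

/-!
# Set mappings on the successor of a singular cardinal

A forcing notion which adds no new functions defined on the singular cardinal `λ` and which adds
a set mapping on `λ⁺` without free sets of size `(cf λ)⁺`, such that the intersection of any `λ⁺`
of its values has fewer than `λ` elements.

The conditions describe initial segments of three things: a subadditive and locally small
function `d : [λ⁺]² → cf λ`, an enumeration of the subsets of `λ⁺` of size `λ`, and graphs `N n`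
(`n < cf λ`) without triangles. Stage `b` joins `b`, for every enumerated set `A ξ ⊆ b` of size
`λ` with `ξ < b`, to an element of `A ξ` by an edge of the graph `N n`, where `n` is the level
`d(ξ, b)`; these elements form an independent transversal. The set mapping sends `b` to the set
of all `a < b` which are not joined to `b`.
-/

namespace Pool.Agent.Helper72.SetMap
open Cardinal Ordinal Set

universe u v w

section

theorem exists_rec {I : Type u} {X : Type v} [LinearOrder I] [WellFoundedLT I]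
    (R : (i : I) → ((j : I) → j < i → X) → X → Prop)
    (h : ∀ i (f : (j : I) → j < i → X),
      (∀ j (hj : j < i), R j (fun k hk => f k (hk.trans hj)) (f j hj)) → ∃ x, R i f x) :
    ∃ F : I → X, ∀ i, R i (fun j _ => F j) (F i) := by
  classical
  rcases isEmpty_or_nonempty I with hI | hI
  · exact ⟨fun i => (hI.false i).elim, fun i => (hI.false i).elim⟩
  have hX : Nonempty X := by
    obtain ⟨b, _, hb⟩ := (wellFounded_lt (α := I)).has_min Set.univ Set.univ_nonempty
    obtain ⟨x, _⟩ := h b (fun j hj => (hb j trivial hj).elim) (fun j hj => (hb j trivial hj).elim)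
    exact ⟨x⟩
  let G : (i : I) → ((j : I) → j < i → X) → X := fun i f =>
    if h : ∃ x, R i f x then h.choose else Classical.arbitrary X
  let F : I → X := (wellFounded_lt (α := I)).fix G
  have hF : ∀ i, F i = G i (fun j _ => F j) := fun i => WellFounded.fix_eq _ G i
  refine ⟨F, fun i => ?_⟩
  induction i using (wellFounded_lt (α := I)).induction with
  | _ i ih =>
    have h1 : ∃ x, R i (fun j _ => F j) x := h i _ (fun j hj => ih j hj)
    have h2 : F i = h1.choose := by
      rw [hF i]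
      exact dif_pos h1
    rw [h2]
    exact h1.choose_spec

/-- independent transversals -/
theorem indep_transversal {ι V : Type u} (κ : Cardinal.{u}) (hκ : κ.IsRegular) (hι : #ι < κ)
    (Nb : V → Set V) (hN : ∀ v, #(Nb v) < κ) (hirr : ∀ v, v ∉ Nb v)
    (B : ι → Set V) (hB : ∀ i, κ < #(B i)) :
    ∃ t : ι → V, (∀ i, t i ∈ B i) ∧ ∀ i j, t j ∉ Nb (t i) := by
  classical
  by_contra hcon
  -- the incomplete transversals avoiding `Z`
  let PT : Set V → Set (Set (ι × V)) := fun Z => {P | (∀ a ∈ P, a.2 ∈ B a.1 ∧ a.2 ∉ Z) ∧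
    (∀ a ∈ P, ∀ b ∈ P, a.1 = b.1 → a = b) ∧ (∀ a ∈ P, ∀ b ∈ P, b.2 ∉ Nb a.2)}
  have hz : ∀ Z, ∃ M, Maximal (· ∈ PT Z) M := by
    intro Z
    apply zorn_subset
    intro c hc hch
    refine ⟨⋃₀ c, ⟨?_, ?_, ?_⟩, fun s hs => subset_sUnion_of_mem hs⟩
    · rintro a ⟨s, hs, ha⟩
      exact (hc hs).1 a ha
    · rintro a ⟨s, hs, ha⟩ b ⟨s', hs', hb⟩ hab
      rcases hch.total hs hs' with h | h
      · exact (hc hs').2.1 a (h ha) b hb hab
      · exact (hc hs).2.1 a ha b (h hb) hab
    · rintro a ⟨s, hs, ha⟩ b ⟨s', hs', hb⟩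
      rcases hch.total hs hs' with h | h
      · exact (hc hs').2.2 a (h ha) b hb
      · exact (hc hs).2.2 a ha b (h hb)
  choose M hM using hz
  let K : Type u := κ.ord.ToType
  have hU : ∃ U : K → Set V, ∀ ξ, U ξ = ⋃ η, ⋃ _ : η < ξ, Prod.snd '' M (U η) := by
    obtain ⟨U, hU⟩ := exists_rec (I := K) (X := Set V)
      (fun ξ f x => x = ⋃ η, ⋃ h : η < ξ, Prod.snd '' M (f η h)) (fun ξ f _ => ⟨_, rfl⟩)
    exact ⟨U, hU⟩
  obtain ⟨U, hU⟩ := hU
  let ran : K → Set V := fun ξ => Prod.snd '' M (U ξ)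
  have hran : ∀ ξ v, v ∈ ran ξ → v ∉ U ξ := by
    rintro ξ v ⟨a, ha, rfl⟩
    exact ((hM (U ξ)).1.1 a ha).2
  have hsub : ∀ η ξ, η < ξ → ran η ⊆ U ξ := by
    intro η ξ h v hv
    rw [hU ξ]
    exact mem_iUnion₂.2 ⟨η, h, hv⟩
  have hdisj : ∀ ξ η v, v ∈ ran ξ → v ∈ ran η → ξ = η := by
    intro ξ η v h1 h2
    rcases lt_trichotomy ξ η with h | h | h
    · exact absurd (hsub _ _ h h1) (hran _ _ h2)
    · exact h
    · exact absurd (hsub _ _ h h2) (hran _ _ h1)
  have hcard : ∀ ξ, #(ran ξ) ≤ κ := by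
    intro ξ
    have h1 : #(ran ξ) ≤ #(M (U ξ)) := mk_image_le
    have h2 : #(M (U ξ)) ≤ #ι := by
      refine mk_le_of_injective (f := fun a : M (U ξ) => a.1.1) ?_
      rintro ⟨a, ha⟩ ⟨b, hb⟩ hab
      exact Subtype.ext ((hM (U ξ)).1.2.1 a ha b hb hab)
    exact h1.trans (h2.trans hι.le)
  have hK : #K = κ := by
    change #(κ.ord.ToType) = κ
    simp
  have hTot : #(⋃ ξ, ran ξ : Set V) ≤ κ := by
    refine (mk_iUnion_le_sum_mk.trans (sum_le_mk_mul_iSup _)).trans ?_
    rw [hK]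
    refine mul_le_of_le hκ.1 le_rfl ?_
    exact ciSup_le' hcard
  have hNT : #(⋃ v ∈ (⋃ ξ, ran ξ : Set V), Nb v : Set V) ≤ κ := by
    rw [biUnion_eq_iUnion]
    refine (mk_iUnion_le_sum_mk.trans (sum_le_mk_mul_iSup _)).trans ?_
    refine mul_le_of_le hκ.1 hTot ?_
    exact ciSup_le' fun v => (hN v).le
  -- every maximal incomplete transversal misses some index
  have hmiss : ∀ ξ, ∃ i, ∀ v, (i, v) ∉ M (U ξ) := by
    intro ξ
    by_contra hc
    push Not at hc
    choose t ht using hc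
    exact hcon ⟨t, fun i => ((hM (U ξ)).1.1 _ (ht i)).1,
      fun i j => (hM (U ξ)).1.2.2 _ (ht i) _ (ht j)⟩
  choose m hm using hmiss
  obtain ⟨i, hi⟩ := infinite_pigeonhole_card m κ hK.ge hκ.1 (by rw [hκ.cof_ord]; exact hι)
  obtain ⟨x, hxB, hx⟩ : ∃ x ∈ B i, x ∉ (⋃ ξ, ran ξ : Set V) ∪
      (⋃ v ∈ (⋃ ξ, ran ξ : Set V), Nb v : Set V) := by
    by_contra hc
    push Not at hc
    have h1 : #(B i) ≤ κ := by
      refine (mk_le_mk_of_subset (show B i ⊆ _ from hc)).trans ?_
      refine (mk_union_le _ _).trans (add_le_of_le hκ.1 hTot hNT)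
    exact absurd h1 (not_le.2 (hB i))
  have hx1 : ∀ ξ, x ∉ ran ξ := fun ξ h => hx (Or.inl (mem_iUnion.2 ⟨ξ, h⟩))
  have hx2 : ∀ ξ, ∀ v ∈ ran ξ, x ∉ Nb v := fun ξ v hv h =>
    hx (Or.inr (mem_iUnion₂.2 ⟨v, mem_iUnion.2 ⟨ξ, hv⟩, h⟩))
  have hx3 : ∀ ξ, x ∉ U ξ := by
    intro ξ h
    rw [hU ξ] at h
    obtain ⟨η, _, h'⟩ := mem_iUnion₂.1 h
    exact hx1 η h'
  have key : ∀ ξ : m ⁻¹' {i}, ∃ v ∈ ran ξ.1, v ∈ Nb x := by
    rintro ⟨ξ, hξ⟩
    have hξ' : m ξ = i := hξ
    by_contra hc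
    push Not at hc
    have h1 : insert (i, x) (M (U ξ)) ∈ PT (U ξ) := by
      refine ⟨?_, ?_, ?_⟩
      · rintro a (rfl | ha)
        · exact ⟨hxB, hx3 ξ⟩
        · exact (hM (U ξ)).1.1 a ha
      · rintro a (rfl | ha) b (rfl | hb) hab
        · rfl
        · exfalso
          apply hm ξ b.2
          rw [hξ']
          have : b = (i, b.2) := Prod.ext hab.symm rfl
          rwa [this] at hb
        · exfalso
          apply hm ξ a.2
          rw [hξ']
          have : a = (i, a.2) := Prod.ext hab rfl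
          rwa [this] at ha
        · exact (hM (U ξ)).1.2.1 a ha b hb hab
      · rintro a (rfl | ha) b (rfl | hb)
        · exact hirr x
        · exact hc b.2 ⟨b, hb, rfl⟩
        · exact hx2 ξ a.2 ⟨a, ha, rfl⟩
        · exact (hM (U ξ)).1.2.2 a ha b hb
    have h2 : (i, x) ∈ M (U ξ) := (hM (U ξ)).2 h1 (subset_insert _ _) (mem_insert _ _)
    exact hm ξ x (by rw [hξ']; exact h2)
  choose w hw1 hw2 using key
  have hle : #(m ⁻¹' {i}) ≤ #(Nb x) := by
    refine mk_le_of_injective (f := fun ξ => (⟨w ξ, hw2 ξ⟩ : Nb x)) ?_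
    intro ξ η h
    have h' : w ξ = w η := congrArg Subtype.val h
    exact Subtype.ext (hdisj _ _ _ (hw1 ξ) (h' ▸ hw1 η))
  exact absurd (hi.trans hle) (not_le.2 (hN x))

end

section

/-- A special case of the Erdős–Rado theorem: a coloring of pairs without a monochromatic
triangle. -/
theorem card_le_of_no_triangle {H C : Type u} [LinearOrder H] [WellFoundedLT H] (col : H → H → C)
    (hcol : ∀ a b g, a < b → b < g → col a b = col a g → col a g = col b g → False) :
    #H ≤ 2 ^ (#C * #C) := by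
  classical
  obtain ⟨Pr, hPr⟩ : ∃ Pr : H → Set H, ∀ b, Pr b =
      {a | ∃ _ : a < b, ∀ a' ∈ Pr a, col a' a = col a' b} := by
    obtain ⟨Pr, h⟩ := exists_rec (I := H) (X := Set H)
      (fun b f x => x = {a | ∃ h : a < b, ∀ a' ∈ f a h, col a' a = col a' b})
      (fun b f _ => ⟨_, rfl⟩)
    exact ⟨Pr, h⟩
  have mem : ∀ a b, a ∈ Pr b ↔ a < b ∧ ∀ a' ∈ Pr a, col a' a = col a' b := by
    intro a b
    rw [hPr b]
    exact exists_prop
  have T1 : ∀ b, ∀ a ∈ Pr b, ∀ a' ∈ Pr a, a' ∈ Pr b := by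
    intro b
    induction b using (wellFounded_lt (α := H)).induction with
    | _ b ih =>
      intro a ha a' ha'
      have h1 := (mem a b).1 ha
      have h2 := (mem a' a).1 ha'
      refine (mem a' b).2 ⟨h2.1.trans h1.1, fun a'' h3 => ?_⟩
      rw [h2.2 a'' h3, h1.2 a'' (ih a h1.1 a' ha' a'' h3)]
  have T2 : ∀ b, ∀ g ∈ Pr b, ∀ a, a ∈ Pr b → a < g → a ∈ Pr g := by
    intro b g hg a
    induction a using (wellFounded_lt (α := H)).induction with
    | _ a ih =>
      intro ha hag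
      refine (mem a g).2 ⟨hag, fun a'' h1 => ?_⟩
      have h2 := (mem a'' a).1 h1
      have h3 := ih a'' h2.1 (T1 b a ha a'' h1) (h2.1.trans hag)
      rw [((mem a b).1 ha).2 a'' h1, ((mem g b).1 hg).2 a'' h3]
  have T3 : ∀ b, ∀ a ∈ Pr b, ∀ g ∈ Pr b, a < g → col a b ≠ col g b := by
    intro b a ha g hg hag h
    have h1 := T2 b g hg a ha hag
    exact hcol a g b hag ((mem g b).1 hg).1 (((mem g b).1 hg).2 a h1) h
  have T4 : ∀ b, ∀ a ∈ Pr b, ∀ g ∈ Pr b, col a b = col g b → a = g := by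
    intro b a ha g hg h
    rcases lt_trichotomy a g with h1 | h1 | h1
    · exact absurd h (T3 b a ha g hg h1)
    · exact h1
    · exact absurd h.symm (T3 b g hg a ha h1)
  let R : H → Set (C × C) := fun b => {p | ∃ a ∈ Pr b, ∃ g ∈ Pr b, a ≤ g ∧
    p = (col a b, col g b)}
  have hRi : ∀ b, ∀ a ∈ Pr b, ∀ g ∈ Pr b, a ≤ g → (col a b, col g b) ∈ R b :=
    fun b a ha g hg h => ⟨a, ha, g, hg, h, rfl⟩
  have K : ∀ b b', R b = R b' → ∀ a, a ∈ Pr b → a ∈ Pr b' ∧ col a b = col a b' := by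
    intro b b' hR a
    induction a using (wellFounded_lt (α := H)).induction with
    | _ a ih =>
      intro ha
      have h1 := hRi b a ha a ha le_rfl
      rw [hR] at h1
      obtain ⟨s, hs, s', hs', _, h2⟩ := h1
      have h3 : col a b = col s b' := congrArg Prod.fst h2
      have h4 : ∀ y ∈ Pr a, y ∈ Pr s := by
        intro y hy
        have hyb := T1 b a ha y hy
        have hya := ((mem y a).1 hy).1
        obtain ⟨h5, h6⟩ := ih y hya hyb
        have h7 := hRi b y hyb a ha hya.le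
        rw [hR] at h7
        obtain ⟨t, ht, t', ht', h8, h9⟩ := h7
        have h10 : t = y := T4 b' t ht y h5 ((congrArg Prod.fst h9).symm.trans h6)
        have h11 : t' = s := T4 b' t' ht' s hs ((congrArg Prod.snd h9).symm.trans h3)
        subst h10
        subst h11
        refine T2 b' t' hs t h5 (lt_of_le_of_ne h8 ?_)
        rintro rfl
        exact T3 b t hyb a ha hya (h6.trans h3.symm)
      have h5 : ∀ y ∈ Pr s, y ∈ Pr a := by
        intro y hy
        have hyb := T1 b' s hs y hy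
        have hys := ((mem y s).1 hy).1
        have h7 := hRi b' y hyb s hs hys.le
        rw [← hR] at h7
        obtain ⟨t, ht, t', ht', h8, h9⟩ := h7
        have h10 : t' = a := T4 b t' ht' a ha ((congrArg Prod.snd h9).symm.trans h3.symm)
        subst h10
        have h11 : t < t' := by
          refine lt_of_le_of_ne h8 ?_
          rintro rfl
          have h12 : col y b' = col t b := congrArg Prod.fst h9
          exact T3 b' y hyb s hs hys (h12.trans h3)
        obtain ⟨h12, h13⟩ := ih t h11 ht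
        have h14 : t = y := T4 b' t h12 y hyb (h13.symm.trans (congrArg Prod.fst h9).symm)
        subst h14
        exact T2 b t' ha t ht h11
      have h6 : ∀ y ∈ Pr a, col y a = col y s := by
        intro y hy
        have hyb := T1 b a ha y hy
        obtain ⟨h7, h8⟩ := ih y ((mem y a).1 hy).1 hyb
        rw [((mem a b).1 ha).2 y hy, h8, ((mem s b').1 hs).2 y (h4 y hy)]
      have h7 : a = s := by
        rcases lt_trichotomy a s with h | h | h
        · have h8 : a ∈ Pr s := (mem a s).2 ⟨h, h6⟩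
          exact absurd ((mem a a).1 (h5 a h8)).1 (lt_irrefl _)
        · exact h
        · have h8 : s ∈ Pr a := (mem s a).2 ⟨h, fun y hy => (h6 y (h5 y hy)).symm⟩
          exact absurd ((mem s s).1 (h4 s h8)).1 (lt_irrefl _)
      subst h7
      exact ⟨hs, h3⟩
  have hinj : Function.Injective R := by
    intro b b' hR
    have h1 := K b b' hR
    have h2 := K b' b hR.symm
    rcases lt_trichotomy b b' with h | h | h
    · have h3 : b ∈ Pr b' := (mem b b').2 ⟨h, fun y hy => (h1 y hy).2⟩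
      exact absurd ((mem b b).1 (h2 b h3).1).1 (lt_irrefl _)
    · exact h
    · have h3 : b' ∈ Pr b := (mem b' b).2 ⟨h, fun y hy => (h2 y hy).2⟩
      exact absurd ((mem b' b').1 (h1 b' h3).1).1 (lt_irrefl _)
  have h1 := mk_le_of_injective hinj
  rw [mk_set, mk_prod, Cardinal.lift_id] at h1
  exact h1

end

section

/-- a sequence of infinite cardinals cofinal in the limit cardinal `lam` -/
structure Setup {M : Type u} [LinearOrder M] (lam : Cardinal.{u}) (c : M → Cardinal.{u}) : Prop where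
  inf : ∀ n, ℵ₀ ≤ c n
  mono : Monotone c
  lt : ∀ n, c n < lam
  cof : ∀ μ < lam, ∃ n, μ ≤ c n
  lim : ∀ μ < lam, Order.succ μ < lam

theorem Setup.inf_lam {M : Type u} [LinearOrder M] {lam : Cardinal.{u}} {c : M → Cardinal.{u}}
    [OrderBot M] (hS : Setup lam c) : ℵ₀ ≤ lam := (hS.inf ⊥).trans (hS.lt ⊥).le

/-- the well-ordered set of the ordinals below `lam⁺` -/
abbrev Lam (lam : Cardinal.{u}) : Type u := (Order.succ lam).ord.ToType

theorem mk_Iio_ord_lt {μ : Cardinal.{u}} (i : μ.ord.ToType) : #(Iio i) < μ := by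
  simpa using mk_Iio_lt i

section
variable {lam : Cardinal.{u}}

theorem mk_Iio_le (a : Lam lam) : #(Iio a) ≤ lam := by
  have h : #(Iio a) < Order.succ lam := mk_Iio_ord_lt a
  exact Order.lt_succ_iff.1 h

theorem mk_Iic_le (hl : ℵ₀ ≤ lam) (a : Lam lam) : #(Iic a) ≤ lam := by
  have : Iic a = insert a (Iio a) := by
    ext x
    simp [le_iff_eq_or_lt]
  rw [this]
  refine (mk_insert_le).trans ?_
  exact add_le_of_le hl (mk_Iio_le a) (one_le_aleph0.trans hl)

theorem mk_Lam : #(Lam lam) = Order.succ lam := by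
  change #((Order.succ lam).ord.ToType) = _
  simp

theorem exists_bound (hl : ℵ₀ ≤ lam) {ι : Type u} (hι : #ι ≤ lam) (f : ι → Lam lam) :
    ∃ b : Lam lam, ∀ i, f i < b := by
  by_contra hc
  push Not at hc
  have h1 : (Set.univ : Set (Lam lam)) ⊆ ⋃ n, Set.Iic (f n) := by
    intro a _
    obtain ⟨n, hn⟩ := hc a
    exact Set.mem_iUnion.2 ⟨n, hn⟩
  have h2 : #(⋃ n, Set.Iic (f n) : Set (Lam lam)) ≤ lam := by
    refine (mk_iUnion_le_sum_mk.trans (sum_le_mk_mul_iSup _)).trans ?_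
    refine mul_le_of_le hl hι ?_
    exact ciSup_le' fun v => mk_Iic_le hl _
  have h3 := (mk_le_mk_of_subset h1).trans h2
  rw [mk_univ, mk_Lam] at h3
  exact absurd h3 (not_le.2 (Order.lt_succ lam))

end

/-- The data attached to an element of `Lam lam`. -/
structure Dat (X M : Type u) where
  /-- the levels of the smaller elements -/
  d : X → M
  /-- a set enumerated at this stage -/
  A : Set X
  /-- the sets of neighbours of the different levels -/
  N : M → Set X

variable {M : Type u} [LinearOrder M] [OrderBot M] {lam : Cardinal.{u}} {c : M → Cardinal.{u}}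

/-- The data are as wanted at stage `b`. -/
structure Good (c : M → Cardinal.{u}) (x : Lam lam → Dat (Lam lam) M) (b : Lam lam) :
    Prop where
  d0 : (x b).d b = ⊥
  d1 : ∀ n, #{a | a ≤ b ∧ (x b).d a ≤ n} ≤ c n
  d2 : ∀ a g, a ≤ g → g ≤ b → (x g).d a ≤ max ((x b).d a) ((x b).d g)
  d3 : ∀ a g, a ≤ g → g ≤ b → (x b).d a ≤ max ((x g).d a) ((x b).d g)
  n1 : ∀ n, ∀ a ∈ (x b).N n, a < b ∧ n < (x b).d a
  n2 : ∀ n, ∀ a ∈ (x b).N n, ∀ a' ∈ (x b).N n, a ∉ (x a').N n
  n3 : ∀ n, #((x b).N n) ≤ c n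
  n4 : ∀ ξ < b, (x ξ).A ⊆ Iio b → lam ≤ #(x ξ).A → ∃ n, ∃ a ∈ (x ξ).A, a ∈ (x b).N n

theorem Good.congr {x y : Lam lam → Dat (Lam lam) M} {b : Lam lam} (h : Good c x b)
    (hxy : ∀ a ≤ b, y a = x a) : Good c y b := by
  have hb := hxy b le_rfl
  refine ⟨?_, ?_, ?_, ?_, ?_, ?_, ?_, ?_⟩
  · rw [hb]; exact h.d0
  · rw [hb]; exact h.d1
  · intro a g h1 h2
    rw [hb, hxy g h2]; exact h.d2 a g h1 h2
  · intro a g h1 h2
    rw [hb, hxy g h2]; exact h.d3 a g h1 h2
  · rw [hb]; exact h.n1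
  · intro n a ha a' ha'
    rw [hb] at ha ha'
    rw [hxy a' (h.n1 n a' ha').1.le]
    exact h.n2 n a ha a' ha'
  · rw [hb]; exact h.n3
  · intro ξ hξ
    rw [hb, hxy ξ hξ.le]
    exact h.n4 ξ hξ

/-- the data can be prolonged by one stage -/
theorem attach (hS : Setup lam c) (x : Lam lam → Dat (Lam lam) M) (b : Lam lam)
    (hx : ∀ a < b, Good c x a) (D : Lam lam → M)
    (hD1 : ∀ n, #{a | a < b ∧ D a ≤ n} ≤ c n)
    (hD2 : ∀ a g, a ≤ g → g < b → (x g).d a ≤ max (D a) (D g))
    (hD3 : ∀ a g, a ≤ g → g < b → D a ≤ max ((x g).d a) (D g)) (A' : Set (Lam lam)) :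
    ∃ y : Lam lam → Dat (Lam lam) M, (∀ a < b, y a = x a) ∧ Good c y b ∧ (y b).A = A' ∧
      ∀ a < b, (y b).d a = D a := by
  classical
  -- the transversals
  have key : ∀ n : M, ∃ t : {ξ : Lam lam // ξ < b ∧ D ξ ≤ n ∧ (x ξ).A ⊆ Iio b ∧
      lam ≤ #(x ξ).A} → Lam lam,
      (∀ i, t i ∈ (x i.1).A ∧ n < D (t i)) ∧ ∀ i j, t j ∉ (x (t i)).N n := by
    intro n
    have hκ : (Order.succ (c n)).IsRegular := isRegular_succ (hS.inf n)
    have hι : #{ξ : Lam lam // ξ < b ∧ D ξ ≤ n ∧ (x ξ).A ⊆ Iio b ∧ lam ≤ #(x ξ).A} <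
        Order.succ (c n) :=
      Order.lt_succ_iff.2 ((mk_le_mk_of_subset (s := {ξ : Lam lam | ξ < b ∧ D ξ ≤ n ∧
        (x ξ).A ⊆ Iio b ∧ lam ≤ #(x ξ).A}) (t := {a | a < b ∧ D a ≤ n})
        (fun ξ h => ⟨h.1, h.2.1⟩)).trans (hD1 n))
    have hN : ∀ v : Lam lam, #{w : Lam lam | v < b ∧ w ∈ (x v).N n} < Order.succ (c n) := by
      intro v
      refine Order.lt_succ_iff.2 ?_
      by_cases hv : v < b
      · refine (mk_le_mk_of_subset (fun w hw => hw.2)).trans ((hx v hv).n3 n)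
      · have : {w | v < b ∧ w ∈ (x v).N n} = ∅ := by
          ext w; simp [hv]
        rw [this]
        simp
    have hirr : ∀ v : Lam lam, v ∉ {w : Lam lam | v < b ∧ w ∈ (x v).N n} := by
      rintro v ⟨h1, h2⟩
      exact lt_irrefl _ ((hx v h1).n1 n v h2).1
    have hB : ∀ i : {ξ : Lam lam // ξ < b ∧ D ξ ≤ n ∧ (x ξ).A ⊆ Iio b ∧ lam ≤ #(x ξ).A},
        Order.succ (c n) < #{a : Lam lam | a ∈ (x i.1).A ∧ n < D a} := by
      rintro ⟨ξ, h1, h2, h3, h4⟩
      by_contra hc
      push Not at hc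
      have h5 : (x ξ).A ⊆ {a | a ∈ (x ξ).A ∧ n < D a} ∪ {a | a < b ∧ D a ≤ n} := by
        intro a ha
        rcases lt_or_ge n (D a) with h | h
        · exact Or.inl ⟨ha, h⟩
        · exact Or.inr ⟨h3 ha, h⟩
      have h6 : #(x ξ).A ≤ Order.succ (c n) := by
        refine (mk_le_mk_of_subset h5).trans ((mk_union_le _ _).trans ?_)
        exact add_le_of_le hκ.1 hc ((hD1 n).trans (Order.le_succ _))
      exact absurd (h4.trans h6) (not_le.2 (hS.lim _ (hS.lt n)))
    obtain ⟨t, ht1, ht2⟩ := indep_transversal (Order.succ (c n)) hκ hι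
      (fun v => {w | v < b ∧ w ∈ (x v).N n}) hN hirr
      (fun i => {a | a ∈ (x i.1).A ∧ n < D a}) hB
    exact ⟨t, ht1, fun i j h => ht2 i j ⟨i.2.2.2.1 (ht1 i).1, h⟩⟩
  choose t ht1 ht2 using key
  let y : Lam lam → Dat (Lam lam) M := Function.update x b
    { d := fun a => if a < b then D a else ⊥
      A := A'
      N := fun n => range (t n) }
  have hy : ∀ a < b, y a = x a := fun a ha => Function.update_of_ne ha.ne _ _
  have hyb : y b = { d := fun a => if a < b then D a else ⊥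
                     A := A'
                     N := fun n => range (t n) } := Function.update_self _ _ _
  have hyd : ∀ a < b, (y b).d a = D a := by
    intro a ha
    rw [hyb]
    exact if_pos ha
  have hyd0 : (y b).d b = ⊥ := by
    rw [hyb]
    exact if_neg (lt_irrefl b)
  have hyN : ∀ n, (y b).N n = range (t n) := by
    intro n
    rw [hyb]
  have ht3 : ∀ n i, t n i < b := fun n i => i.2.2.2.1 (ht1 n i).1
  refine ⟨y, hy, ⟨hyd0, ?_, ?_, ?_, ?_, ?_, ?_, ?_⟩, ?_, hyd⟩
  · intro n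
    have h1 : {a | a ≤ b ∧ (y b).d a ≤ n} ⊆ insert b {a | a < b ∧ D a ≤ n} := by
      rintro a ⟨h1, h2⟩
      rcases h1.eq_or_lt with h | h
      · exact Or.inl h
      · exact Or.inr ⟨h, by rwa [hyd a h] at h2⟩
    refine (mk_le_mk_of_subset h1).trans (mk_insert_le.trans ?_)
    exact add_le_of_le (hS.inf n) (hD1 n) (one_le_aleph0.trans (hS.inf n))
  · intro a g h1 h2
    rcases h2.eq_or_lt with rfl | h
    · exact le_max_left _ _
    · rw [hy g h, hyd g h, hyd a (h1.trans_lt h)]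
      exact hD2 a g h1 h
  · intro a g h1 h2
    rcases h2.eq_or_lt with rfl | h
    · exact le_max_left _ _
    · rw [hy g h, hyd g h, hyd a (h1.trans_lt h)]
      exact hD3 a g h1 h
  · intro n a ha
    rw [hyN] at ha
    obtain ⟨i, rfl⟩ := ha
    refine ⟨ht3 n i, ?_⟩
    rw [hyd _ (ht3 n i)]
    exact (ht1 n i).2
  · intro n a ha a' ha'
    rw [hyN] at ha ha'
    obtain ⟨i, rfl⟩ := ha
    obtain ⟨j, rfl⟩ := ha'
    rw [hy _ (ht3 n j)]
    exact ht2 n j i
  · intro n
    rw [hyN]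
    refine mk_range_le.trans ?_
    exact (mk_le_mk_of_subset (s := {ξ : Lam lam | ξ < b ∧ D ξ ≤ n ∧
        (x ξ).A ⊆ Iio b ∧ lam ≤ #(x ξ).A}) (t := {a | a < b ∧ D a ≤ n})
        (fun ξ h => ⟨h.1, h.2.1⟩)).trans (hD1 n)
  · intro ξ hξ
    rw [hy ξ hξ]
    intro h1 h2
    refine ⟨D ξ, t (D ξ) ⟨ξ, hξ, le_rfl, h1, h2⟩, (ht1 (D ξ) ⟨ξ, hξ, le_rfl, h1, h2⟩).1, ?_⟩
    rw [hyN]
    exact mem_range_self _
  · rw [hyb]

end

section

variable {M : Type u} [LinearOrder M] [OrderBot M] {lam : Cardinal.{u}} {c : M → Cardinal.{u}}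

/-- The conditions: initial segments, with a last stage. -/
structure Cond (lam : Cardinal.{u}) (c : M → Cardinal.{u}) : Type u where
  /-- the last stage -/
  top : Lam lam
  /-- the data (relevant only up to the last stage) -/
  x : Lam lam → Dat (Lam lam) M
  good : ∀ b ≤ top, Good c x b

instance : Preorder (Cond lam c) where
  le q p := p.top ≤ q.top ∧ ∀ a ≤ p.top, q.x a = p.x a
  le_refl p := ⟨le_rfl, fun _ _ => rfl⟩
  le_trans q p r h h' := ⟨h'.1.trans h.1, fun a ha =>
    (h.2 a (ha.trans h'.1)).trans (h'.2 a ha)⟩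

theorem Cond.le_def {q p : Cond lam c} : q ≤ p ↔ p.top ≤ q.top ∧ ∀ a ≤ p.top, q.x a = p.x a :=
  Iff.rfl

/-- a condition obtained from data which are good below `b` -/
theorem exists_cond (hS : Setup lam c) (x : Lam lam → Dat (Lam lam) M) (b : Lam lam)
    (hx : ∀ a < b, Good c x a) (D : Lam lam → M)
    (hD1 : ∀ n, #{a | a < b ∧ D a ≤ n} ≤ c n)
    (hD2 : ∀ a g, a ≤ g → g < b → (x g).d a ≤ max (D a) (D g))
    (hD3 : ∀ a g, a ≤ g → g < b → D a ≤ max ((x g).d a) (D g)) (A' : Set (Lam lam)) :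
    ∃ q : Cond lam c, q.top = b ∧ (∀ a < b, q.x a = x a) ∧ (q.x b).A = A' ∧
      ∀ a < b, (q.x b).d a = D a := by
  obtain ⟨y, h1, h2, h3, h4⟩ := attach hS x b hx D hD1 hD2 hD3 A'
  refine ⟨⟨b, y, fun a ha => ?_⟩, rfl, h1, h3, h4⟩
  rcases ha.eq_or_lt with rfl | h
  · exact h2
  · exact (hx a h).congr fun g hg => h1 g (hg.trans_lt h)

theorem one_more (hS : Setup lam c) (p q : Cond lam c) (hqp : q ≤ p) (A' : Set (Lam lam)) :
    ∃ r ≤ q, q.top < r.top ∧ (r.x r.top).d p.top = ⊥ ∧ (r.x r.top).A = A' := by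
  classical
  have hne : ({a | q.top < a} : Set (Lam lam)).Nonempty := by
    obtain ⟨b, hb⟩ := exists_bound hS.inf_lam (ι := PUnit.{u+1})
      (by rw [mk_punit]; exact one_le_aleph0.trans hS.inf_lam) (fun _ => q.top)
    exact ⟨b, hb PUnit.unit⟩
  obtain ⟨b, hb, hmin⟩ := (wellFounded_lt (α := Lam lam)).has_min _ hne
  have hb' : q.top < b := hb
  have hlt : ∀ a, a < b → a ≤ q.top := fun a ha => not_lt.1 fun h => hmin a h ha
  have hgg : p.top ≤ q.top := hqp.1
  have G := q.good q.top le_rfl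
  have G0 := q.good p.top hgg
  let D : Lam lam → M := fun a => if a ≤ p.top then (q.x p.top).d a else
    max ((q.x q.top).d p.top) ((q.x q.top).d a)
  have hDl : ∀ a, a ≤ p.top → D a = (q.x p.top).d a := fun a h => if_pos h
  have hDr : ∀ a, p.top < a → D a = max ((q.x q.top).d p.top) ((q.x q.top).d a) :=
    fun a h => if_neg (not_le.2 h)
  have hlast : ∀ g, p.top < g → g ≤ q.top → (q.x g).d p.top ≤ D g := by
    intro g h1 h2
    rw [hDr g h1]
    exact G.d2 _ _ h1.le h2
  obtain ⟨r, hr1, hr2, hr3, hr4⟩ := exists_cond hS q.x b (fun a ha => q.good a (hlt a ha)) D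
    (by
      intro n
      have h1 : {a | a < b ∧ D a ≤ n} ⊆ {a | a ≤ p.top ∧ (q.x p.top).d a ≤ n} ∪
          {a | a ≤ q.top ∧ (q.x q.top).d a ≤ n} := by
        rintro a ⟨h1, h2⟩
        rcases le_or_gt a p.top with h | h
        · exact Or.inl ⟨h, by rwa [hDl a h] at h2⟩
        · refine Or.inr ⟨hlt a h1, ?_⟩
          rw [hDr a h] at h2
          exact (le_max_right _ _).trans h2
      refine (mk_le_mk_of_subset h1).trans ((mk_union_le _ _).trans ?_)
      exact add_le_of_le (hS.inf n) (G0.d1 n) (G.d1 n))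
    (by
      intro a g h1 h2
      rcases le_or_gt g p.top with h | h
      · rw [hDl g h, hDl a (h1.trans h)]
        exact G0.d2 a g h1 h
      rcases le_or_gt a p.top with h' | h'
      · have h3 := (q.good g (hlt g h2)).d3 a p.top h' h.le
        have h4 := hlast g h (hlt g h2)
        rw [hDl a h']
        exact h3.trans (max_le_max le_rfl h4)
      · have h3 := G.d2 a g h1 (hlt g h2)
        rw [hDr a h', hDr g h]
        exact h3.trans (max_le_max (le_max_right _ _) (le_max_right _ _)))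
    (by
      intro a g h1 h2
      rcases le_or_gt g p.top with h | h
      · rw [hDl g h, hDl a (h1.trans h)]
        exact G0.d3 a g h1 h
      rcases le_or_gt a p.top with h' | h'
      · have h3 := (q.good g (hlt g h2)).d2 a p.top h' h.le
        have h4 := hlast g h (hlt g h2)
        rw [hDl a h']
        exact h3.trans (max_le_max le_rfl h4)
      · have h3 := G.d3 a g h1 (hlt g h2)
        rw [hDr a h', hDr g h]
        refine max_le ((le_max_left _ _).trans (le_max_right _ _)) ?_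
        exact h3.trans (max_le_max le_rfl (le_max_right _ _)))
    A'
  refine ⟨r, ⟨by rw [hr1]; exact hb'.le, fun a ha => hr2 a (ha.trans_lt hb')⟩, ?_, ?_, ?_⟩
  · rw [hr1]; exact hb'
  · rw [hr1, hr4 _ (hgg.trans_lt hb'), hDl _ le_rfl]
    exact G0.d0
  · rw [hr1]; exact hr3

theorem limit_step (hS : Setup lam c) {I : Type u} [LinearOrder I] [WellFoundedLT I] [Nonempty I]
    (hI : #I ≤ lam) (p : I → Cond lam c) (lev : I → M) (hlev : Monotone lev)
    (hlev' : ∀ n, #{i | lev i ≤ n} ≤ c n) (hle : ∀ j i, j ≤ i → p i ≤ p j)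
    (htop : ∀ j i, j < i → (p j).top < (p i).top)
    (hd : ∀ j i, j < i → ((p i).x (p i).top).d (p j).top ≤ lev i) :
    ∃ q : Cond lam c, ∀ i, q ≤ p i ∧ (p i).top < q.top ∧ (q.x q.top).d (p i).top ≤ lev i := by
  classical
  obtain ⟨b, hb, hmin⟩ := (wellFounded_lt (α := Lam lam)).has_min _
    (exists_bound hS.inf_lam hI fun i => (p i).top)
  have hb' : ∀ i, (p i).top < b := hb
  have hlt : ∀ a, a < b → ∃ i, a ≤ (p i).top := by
    intro a ha
    by_contra hc
    push Not at hc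
    exact hmin a hc ha
  -- the least index above `a`
  have hj : ∀ a : Lam lam, ∃ j : I, a < b → (a ≤ (p j).top ∧ ∀ i, a ≤ (p i).top → j ≤ i) := by
    intro a
    by_cases ha : a < b
    · obtain ⟨j, h1, h2⟩ := (wellFounded_lt (α := I)).has_min {i | a ≤ (p i).top} (hlt a ha)
      exact ⟨j, fun _ => ⟨h1, fun i hi => not_lt.1 fun h => h2 i hi h⟩⟩
    · exact ⟨Classical.arbitrary I, fun h => absurd h ha⟩
  choose j hj using hj
  let X : Lam lam → Dat (Lam lam) M := fun a => (p (j a)).x a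
  have hX : ∀ i a, a ≤ (p i).top → X a = (p i).x a := by
    intro i a ha
    have h1 := hj a (ha.trans_lt (hb' i))
    exact ((hle _ _ (h1.2 i ha)).2 a h1.1).symm
  have hG : ∀ i a, a ≤ (p i).top → Good c X a := by
    intro i a ha
    exact ((p i).good a ha).congr fun g hg => hX i g (hg.trans ha)
  let D : Lam lam → M := fun a => max ((X (p (j a)).top).d a) (lev (j a))
  have hD : ∀ a, D a = max ((X (p (j a)).top).d a) (lev (j a)) := fun a => rfl
  have hjm : ∀ a g, a ≤ g → g < b → j a ≤ j g := by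
    intro a g h1 h2
    exact (hj a (h1.trans_lt h2)).2 _ (h1.trans (hj g h2).1)
  -- comparing two blocks
  have hblock : ∀ a g, a ≤ g → g < b → j a < j g →
      (X g).d (p (j a)).top ≤ D g ∧ (p (j a)).top ≤ g ∧
      (X (p (j g)).top).d (p (j a)).top ≤ D g := by
    intro a g h1 h2 h3
    have h4 : (p (j a)).top < g := by
      by_contra hc
      exact absurd ((hj g h2).2 _ (not_lt.1 hc)) (not_le.2 h3)
    have h5 := (hG (j g) _ le_rfl).d2 (p (j a)).top g h4.le (hj g h2).1
    have h6 : (X (p (j g)).top).d (p (j a)).top ≤ lev (j g) := by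
      rw [hX (j g) _ le_rfl]
      exact hd _ _ h3
    have h7 : (X (p (j g)).top).d (p (j a)).top ≤ D g := h6.trans (le_max_right _ _)
    exact ⟨h5.trans (max_le h7 (le_max_left _ _)), h4.le, h7⟩
  obtain ⟨q, hq1, hq2, _, hq4⟩ := exists_cond hS X b
    (fun a ha => hG (j a) a (hj a ha).1) D
    (by
      intro n
      have h1 : {a | a < b ∧ D a ≤ n} ⊆ ⋃ i : {i : I | lev i ≤ n},
          {a | a ≤ (p i.1).top ∧ (X (p i.1).top).d a ≤ n} := by
        rintro a ⟨h1, h2⟩
        refine mem_iUnion.2 ⟨⟨j a, (le_max_right _ _).trans h2⟩, (hj a h1).1, ?_⟩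
        exact (le_max_left _ _).trans h2
      refine (mk_le_mk_of_subset h1).trans ?_
      refine (mk_iUnion_le_sum_mk.trans (sum_le_mk_mul_iSup _)).trans ?_
      refine mul_le_of_le (hS.inf n) (hlev' n) ?_
      exact ciSup_le' fun i => (hG i.1 _ le_rfl).d1 n)
    (by
      intro a g h1 h2
      rcases (hjm a g h1 h2).eq_or_lt with h | h
      · have h3 := (hG (j g) _ le_rfl).d2 a g h1 (hj g h2).1
        refine h3.trans (max_le_max ?_ (le_max_left _ _))
        rw [hD a, h]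
        exact le_max_left _ _
      · obtain ⟨_, h4, h5⟩ := hblock a g h1 h2 h
        have h3 := (hG (j g) _ le_rfl).d2 a g h1 (hj g h2).1
        have h6 := (hG (j g) _ le_rfl).d3 a (p (j a)).top (hj a (h1.trans_lt h2)).1
          (h4.trans (hj g h2).1)
        refine h3.trans (max_le (h6.trans (max_le_max (le_max_left _ _) h5)) ?_)
        exact (le_max_left _ _).trans (le_max_right _ _))
    (by
      intro a g h1 h2
      have hl : lev (j a) ≤ D g := (hlev (hjm a g h1 h2)).trans (le_max_right _ _)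
      rw [hD a]
      refine max_le ?_ (hl.trans (le_max_right _ _))
      rcases (hjm a g h1 h2).eq_or_lt with h | h
      · have h3 := (hG (j g) _ le_rfl).d3 a g h1 (hj g h2).1
        rw [h]
        exact h3.trans (max_le_max le_rfl (le_max_left _ _))
      · obtain ⟨h3, h4, _⟩ := hblock a g h1 h2 h
        have h5 := (hG (j g) g (hj g h2).1).d2 a (p (j a)).top (hj a (h1.trans_lt h2)).1 h4
        exact h5.trans (max_le_max le_rfl h3))
    ∅
  refine ⟨q, fun i => ⟨⟨by rw [hq1]; exact (hb' i).le, fun a ha => ?_⟩, by rw [hq1]; exact hb' i,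
    ?_⟩⟩
  · rw [hq2 a (ha.trans_lt (hb' i)), hX i a ha]
  · rw [hq1, hq4 _ (hb' i), hD]
    have h1 : j (p i).top ≤ i := (hj _ (hb' i)).2 i le_rfl
    have h2 : j (p i).top = i := by
      rcases h1.eq_or_lt with h | h
      · exact h
      · exact absurd (hj _ (hb' i)).1 (not_le.2 (htop _ _ h))
    rw [h2]
    refine max_le ?_ le_rfl
    rw [hX i _ le_rfl, ((p i).good _ le_rfl).d0]
    exact bot_le

end

section

variable {M : Type u} [LinearOrder M] [OrderBot M] {lam : Cardinal.{u}} {c : M → Cardinal.{u}}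

theorem mk_le_of_Iio_lt {S : Type u} [LinearOrder S] [WellFoundedLT S] (μ : Cardinal.{u})
    (h : ∀ i : S, #(Iio i) < μ) : #S ≤ μ := by
  by_contra hc
  rw [not_le] at hc
  have h1 : μ.ord < typeLT S := by
    by_contra h2
    rw [not_lt] at h2
    have h3 := card_le_card h2
    rw [card_type, card_ord] at h3
    exact absurd h3 (not_le.2 hc)
  have h2 := card_typein (r := ((· < ·) : S → S → Prop)) (enum (· < ·) ⟨μ.ord, h1⟩)
  rw [typein_enum, card_ord] at h2
  exact absurd h2 (h _).ne'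

theorem exists_level [WellFoundedLT M] (hS : Setup lam c) :
    ∃ lev : lam.ord.ToType → M, Monotone lev ∧ ∀ n, #{i | lev i ≤ n} ≤ c n := by
  classical
  have h0 : ∀ i : lam.ord.ToType, ∃ n, #(Iio i) < c n := by
    intro i
    have h1 : #(Iio i) < lam := mk_Iio_ord_lt i
    obtain ⟨n, hn⟩ := hS.cof _ (hS.lim _ h1)
    exact ⟨n, (Order.lt_succ _).trans_le hn⟩
  have h1 : ∀ i : lam.ord.ToType, ∃ n, #(Iio i) < c n ∧ ∀ m, #(Iio i) < c m → n ≤ m := by
    intro i
    obtain ⟨n, h1, h2⟩ := (wellFounded_lt (α := M)).has_min {n | #(Iio i) < c n} (h0 i)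
    exact ⟨n, h1, fun m hm => not_lt.1 (h2 m hm)⟩
  choose lev h1 h2 using h1
  refine ⟨lev, ?_, ?_⟩
  · intro i j hij
    exact h2 i _ ((mk_le_mk_of_subset (Iio_subset_Iio hij)).trans_lt (h1 j))
  · intro n
    refine mk_le_of_Iio_lt (c n) ?_
    rintro ⟨i, hi⟩
    have h2 : #(Iio i) < c n := (h1 i).trans_le (hS.mono hi)
    refine lt_of_le_of_lt ?_ h2
    refine mk_le_of_injective (f := fun j => (⟨j.1.1, j.2⟩ : Iio i)) ?_
    rintro ⟨⟨j, _⟩, _⟩ ⟨⟨k, _⟩, _⟩ h
    have : j = k := congrArg Subtype.val h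
    subst this
    rfl

/-- a set of sentences, closed downwards -/
def Down {P : Type u} [Preorder P] (φ : Set P) : Prop := ∀ p ∈ φ, ∀ q ≤ p, q ∈ φ

theorem meet_many_ord [WellFoundedLT M] (hS : Setup lam c) (φ : lam.ord.ToType → Set (Cond lam c))
    (hdown : ∀ i, Down (φ i)) (p : Cond lam c) (hdense : ∀ i, ∀ r ≤ p, ∃ q ≤ r, q ∈ φ i) :
    ∃ q ≤ p, ∀ i, q ∈ φ i := by
  classical
  obtain ⟨lev, hlev, hlev'⟩ := exists_level hS
  obtain ⟨F, hF⟩ := exists_rec (I := lam.ord.ToType) (X := Cond lam c)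
    (fun i f q => (∀ j (hj : j < i), q ≤ f j hj ∧ (f j hj).top < q.top ∧
      (q.x q.top).d (f j hj).top ≤ lev i) ∧ q ∈ φ i ∧ q ≤ p) (by
    intro i f ih
    by_cases hne : Nonempty (Iio i)
    · obtain ⟨q0, hq0⟩ := limit_step hS (I := Iio i) (mk_Iio_ord_lt i).le
        (fun j => f j.1 j.2) (fun j => lev j.1) (fun j k h => hlev h)
        (by
          intro n
          refine le_trans ?_ (hlev' n)
          refine mk_le_of_injective (f := fun j => (⟨j.1.1, j.2⟩ : {i | lev i ≤ n})) ?_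
          rintro ⟨⟨j, _⟩, _⟩ ⟨⟨k, _⟩, _⟩ h
          have : j = k := congrArg Subtype.val h
          subst this
          rfl)
        (by
          rintro ⟨j, hj⟩ ⟨k, hk⟩ hjk
          rcases (show j ≤ k from hjk).eq_or_lt with h | h
          · subst h
            exact le_rfl
          · exact ((ih k hk).1 j h).1)
        (by
          rintro ⟨j, hj⟩ ⟨k, hk⟩ hjk
          exact ((ih k hk).1 j hjk).2.1)
        (by
          rintro ⟨j, hj⟩ ⟨k, hk⟩ hjk
          exact ((ih k hk).1 j hjk).2.2)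
      have hq0p : q0 ≤ p := by
        obtain ⟨j⟩ := hne
        exact (hq0 j).1.trans (ih j.1 j.2).2.2
      obtain ⟨q1, hq1, hq1φ⟩ := hdense i q0 hq0p
      obtain ⟨q2, hq2, hq2t, hq2d, _⟩ := one_more hS q0 q1 hq1 ∅
      refine ⟨q2, fun j hj => ?_, hdown i _ hq1φ _ hq2, hq2.trans (hq1.trans hq0p)⟩
      obtain ⟨h1, h2, h3⟩ := hq0 ⟨j, hj⟩
      have h4 : q0.top ≤ q2.top := hq1.1.trans hq2.1
      refine ⟨hq2.trans (hq1.trans h1), h2.trans_le h4, ?_⟩
      have h5 := (q2.good q2.top le_rfl).d3 (f j hj).top q0.top h2.le h4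
      rw [hq2d, (hq2.trans hq1).2 q0.top le_rfl] at h5
      refine h5.trans (max_le (h3.trans (hlev hj.le)) bot_le)
    · obtain ⟨q1, hq1, hq1φ⟩ := hdense i p le_rfl
      exact ⟨q1, fun j hj => (hne ⟨⟨j, hj⟩⟩).elim, hq1φ, hq1⟩)
  have hne : Nonempty lam.ord.ToType := by
    rw [← mk_ne_zero_iff, mk_toType, card_ord]
    exact (aleph0_pos.trans_le hS.inf_lam).ne'
  obtain ⟨q, hq⟩ := limit_step hS (I := lam.ord.ToType) (by simp) F lev hlev hlev'
    (by
      intro j i hji
      rcases hji.eq_or_lt with h | h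
      · subst h
        exact le_rfl
      · exact ((hF i).1 j h).1)
    (fun j i h => ((hF i).1 j h).2.1) (fun j i h => ((hF i).1 j h).2.2)
  obtain ⟨i0⟩ := hne
  exact ⟨q, (hq i0).1.trans (hF i0).2.2, fun i => hdown i _ (hF i).2.1 _ (hq i).1⟩

/-- `lam` many dense requirements can be met at once -/
theorem meet_many [WellFoundedLT M] (hS : Setup lam c) {ι : Type u} (hι : #ι ≤ lam) (φ : ι → Set (Cond lam c))
    (hdown : ∀ i, Down (φ i)) (p : Cond lam c) (hdense : ∀ i, ∀ r ≤ p, ∃ q ≤ r, q ∈ φ i) :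
    ∃ q ≤ p, ∀ i, q ∈ φ i := by
  rcases isEmpty_or_nonempty ι with h | h
  · exact ⟨p, le_rfl, fun i => (h.false i).elim⟩
  have h1 : #ι ≤ #(lam.ord.ToType) := by simpa using hι
  obtain ⟨e⟩ := h1
  let g : lam.ord.ToType → ι := Function.invFun e
  have hg : Function.Surjective g := Function.invFun_surjective e.injective
  obtain ⟨q, hq, hq'⟩ := meet_many_ord hS (fun i => φ (g i)) (fun i => hdown _) p
    (fun i => hdense _)
  refine ⟨q, hq, fun i => ?_⟩
  obtain ⟨j, rfl⟩ := hg i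
  exact hq' j

/-! ### No large free sets -/

/-- A set `H` of more than `μ` many elements below the last stage, where `μ` is the number of
levels, contains a pair which is not adjacent. -/
theorem exists_not_adj {μ : Cardinal.{u}} (hμ : ℵ₀ ≤ μ) (hM : #M = μ)
    (hM' : ∀ m : M, #(Iio m) < μ) (hpow : ∀ κ < μ, 2 ^ κ ≤ μ) [WellFoundedLT M]
    (p : Cond lam c) (H : Set (Lam lam)) (hH : H ⊆ Iic p.top) (hbig : μ < #H) :
    ∃ a ∈ H, ∃ b ∈ H, a < b ∧ ∀ n, a ∉ (p.x b).N n := by
  classical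
  by_contra hc
  push Not at hc
  -- the part of level at most `m`
  have h0 : ∀ m : M, #{a | a ∈ H ∧ (p.x p.top).d a ≤ m} ≤ μ := by
    intro m
    let K : Set (Lam lam) := {a | a ∈ H ∧ (p.x p.top).d a ≤ m}
    have h1 : ∀ a b : K, a < b → ∃ n : Iio m, a.1 ∈ (p.x b.1).N n.1 := by
      rintro ⟨a, ha, ha'⟩ ⟨b, hb, hb'⟩ hab
      obtain ⟨n, hn⟩ := hc a ha b hb hab
      have h3 := (p.good b (hH hb)).n1 n a hn
      have h4 := (p.good p.top le_rfl).d2 a b (show a < b from hab).le (hH hb)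
      exact ⟨⟨n, h3.2.trans_le (h4.trans (max_le ha' hb'))⟩, hn⟩
    rcases isEmpty_or_nonempty (Iio m) with hE | hE
    · have h2 : Subsingleton K := by
        constructor
        intro a b
        rcases lt_trichotomy a b with h | h | h
        · exact (hE.false (h1 a b h).choose).elim
        · exact h
        · exact (hE.false (h1 b a h).choose).elim
      exact (mk_le_one_iff_set_subsingleton.2 (Set.subsingleton_coe K |>.1 h2)).trans
        (one_le_aleph0.trans hμ)
    · let col : K → K → Iio m := fun a b =>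
        if h : a < b then (h1 a b h).choose else Classical.arbitrary _
      have hcol : ∀ a b : K, a < b → a.1 ∈ (p.x b.1).N (col a b).1 := by
        intro a b hab
        have : col a b = (h1 a b hab).choose := dif_pos hab
        rw [this]
        exact (h1 a b hab).choose_spec
      have h2 : #K ≤ 2 ^ (#(Iio m) * #(Iio m)) := by
        refine card_le_of_no_triangle col ?_
        intro a b g hab hbg h3 h4
        have h5 := hcol a b hab
        have h6 := hcol a g (hab.trans hbg)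
        have h7 := hcol b g hbg
        rw [h3] at h5
        rw [h4] at h5 h6
        exact (p.good g.1 (hH g.2.1)).n2 _ a.1 h6 b.1 h7 h5
      refine h2.trans (hpow _ ?_)
      exact mul_lt_of_lt hμ (hM' m) (hM' m)
  have h1 : H ⊆ ⋃ m : M, {a | a ∈ H ∧ (p.x p.top).d a ≤ m} := fun a ha =>
    mem_iUnion.2 ⟨_, ha, le_rfl⟩
  have h2 : #H ≤ μ := by
    refine (mk_le_mk_of_subset h1).trans ?_
    refine (mk_iUnion_le_sum_mk.trans (sum_le_mk_mul_iSup _)).trans ?_
    refine mul_le_of_le hμ hM.le ?_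
    exact ciSup_le' h0
  exact absurd h2 (not_le.2 hbig)

end

section

theorem exists_mk_Iio_eq {lam ν : Cardinal.{u}} (h : ν < lam) :
    ∃ i : lam.ord.ToType, #(Iio i) = ν := by
  have h1 : ν.ord < typeLT lam.ord.ToType := by
    rw [type_toType]
    exact ord_lt_ord.2 h
  refine ⟨enum (· < ·) ⟨ν.ord, h1⟩, ?_⟩
  have h2 := card_typein (r := ((· < ·) : lam.ord.ToType → lam.ord.ToType → Prop))
    (enum (· < ·) ⟨ν.ord, h1⟩)
  rw [typein_enum, card_ord] at h2
  exact h2.symm

theorem exists_setup (lam : Cardinal.{u}) (h0 : ℵ₀ ≤ lam) (h1 : lam.ord.cof < lam) :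
    ∃ c : lam.ord.cof.ord.ToType → Cardinal.{u}, Setup lam c := by
  obtain ⟨s, hs, hs'⟩ := exists_ord_cof_eq lam.ord.ToType
  rw [cof_toType] at hs'
  have h2 : typeLT s = typeLT lam.ord.cof.ord.ToType := by
    rw [hs', type_toType]
  obtain ⟨e⟩ := type_eq.1 h2
  have hlt : ℵ₀ < lam := by
    rcases h0.eq_or_lt with h | h
    · rw [← h, ord_aleph0, cof_omega0] at h1
      exact absurd h1 (lt_irrefl _)
    · exact h
  have hmono : ∀ a b : lam.ord.cof.ord.ToType, a ≤ b → (e.symm a).1 ≤ (e.symm b).1 := by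
    intro a b hab
    rcases hab.eq_or_lt with h | h
    · rw [h]
    · have h3 : (e.symm a) < (e.symm b) := e.symm.map_rel_iff.2 h
      exact le_of_lt h3
  refine ⟨fun m => max ℵ₀ #(Iio (e.symm m).1), fun _ => le_max_left _ _, ?_, ?_, ?_, ?_⟩
  · intro a b hab
    exact max_le_max le_rfl (mk_le_mk_of_subset (Iio_subset_Iio (hmono a b hab)))
  · intro m
    exact max_lt hlt (mk_Iio_ord_lt _)
  · intro ν hν
    obtain ⟨i, hi⟩ := exists_mk_Iio_eq hν
    obtain ⟨j, hj, hij⟩ := hs i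
    refine ⟨e ⟨j, hj⟩, ?_⟩
    rw [e.symm_apply_apply, ← hi]
    exact (mk_le_mk_of_subset (Iio_subset_Iio hij)).trans (le_max_right _ _)
  · intro ν hν
    rcases (Order.succ_le_of_lt hν).eq_or_lt with h | h
    · exfalso
      have h3 : ℵ₀ ≤ ν := by
        by_contra hc
        have h4 : Order.succ ν < ℵ₀ := by
          rw [not_le] at hc
          obtain ⟨n, rfl⟩ := lt_aleph0.1 hc
          have h5 : Order.succ (n : Cardinal.{u}) ≤ ((n + 1 : ℕ) : Cardinal.{u}) :=
            Order.succ_le_of_lt (by exact_mod_cast Nat.lt_succ_self n)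
          exact h5.trans_lt natCast_lt_aleph0
        rw [h] at h4
        exact absurd h4 (not_lt.2 h0)
      have h5 := (isRegular_succ h3).cof_ord
      rw [h] at h5
      rw [h5] at h1
      exact lt_irrefl _ h1
    · exact h

end

section

/-! ### The forcing language -/

section
variable {P : Type u} [Preorder P]

/-- `p` forces `not φ` iff no `q ≤ p` forces `φ`. -/
def fnot (φ : Set P) : Set P := {p | ∀ q ≤ p, q ∉ φ}

/-- `p` forces `φ and ψ` iff it forces both. -/
def fand (φ ψ : Set P) : Set P := {p | p ∈ φ ∧ p ∈ ψ}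

/-- `p` forces `for all i, φ i` iff it forces every `φ i`. -/
def fall {ι : Sort v} (φ : ι → Set P) : Set P := {p | ∀ i, p ∈ φ i}

/-- `φ implies ψ` is `not (φ and not ψ)`. -/
def fimp (φ ψ : Set P) : Set P := fnot (fand φ (fnot ψ))

/-- `there is i with φ i` is `not for all i, not φ i`. -/
def fex {ι : Sort v} (φ : ι → Set P) : Set P := fnot (fall fun i => fnot (φ i))

/-- An absolute statement about ground model objects. -/
def fground (h : Prop) : Set P := {_p | h}

/-- `p` forces that the generic filter meets the set `N` of conditions: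
the set of `r` lying below some member of `N` is dense below `p`. -/
def meets (N : Set P) : Set P := {p | ∀ q ≤ p, ∃ r ≤ q, ∃ s ∈ N, r ≤ s}

/-- The relation named by `R` is a function from `X` to `Y`. -/
def IsFun {X : Type v} {Y : Type w} (R : X → Y → Set P) : Set P :=
  fand (fall fun x => fex fun y => meets (R x y))
    (fall fun x => fall fun y => fall fun y' =>
      fimp (fand (meets (R x y)) (meets (R x y'))) (fground (y = y')))

/-- The relation named by `R` is injective. -/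
def IsInj {X : Type v} {Y : Type w} (R : X → Y → Set P) : Set P :=
  fall fun x => fall fun x' => fall fun y =>
    fimp (fand (meets (R x y)) (meets (R x' y))) (fground (x = x'))

/-- The set of all `y` such that `φ y` holds has at least as many elements as `A`: there is an
injective function defined on `A` with values in this set. -/
def AtLeast (A : Type v) {Y : Type w} (φ : Y → Set P) : Set P :=
  fex fun R : A → Y → Set P => fand (fand (IsFun R) (IsInj R))
    (fall fun a => fall fun y => fimp (meets (R a y)) (φ y))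

theorem mem_fex {ι : Sort v} {φ : ι → Set P} {p : P} :
    p ∈ fex φ ↔ ∀ q ≤ p, ∃ r ≤ q, ∃ i, r ∈ φ i := by
  simp only [fex, fnot, fall, Set.mem_ofPred_eq, not_forall, not_not]
  constructor
  · intro h q hq
    obtain ⟨i, r, hr, h'⟩ := h q hq
    exact ⟨r, hr, i, h'⟩
  · intro h q hq
    obtain ⟨r, hr, i, h'⟩ := h q hq
    exact ⟨i, r, hr, h'⟩

theorem mem_fimp {φ ψ : Set P} {p : P} :
    p ∈ fimp φ ψ ↔ ∀ q ≤ p, q ∈ φ → ∃ r ≤ q, r ∈ ψ := by
  simp only [fimp, fnot, fand, Set.mem_ofPred_eq, not_and, not_forall, not_not]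
  constructor
  · intro h q hq h'
    obtain ⟨r, hr, h''⟩ := h q hq h'
    exact ⟨r, hr, h''⟩
  · intro h q hq h'
    obtain ⟨r, hr, h''⟩ := h q hq h'
    exact ⟨r, hr, h''⟩

theorem down_fnot (φ : Set P) : Down (fnot φ) :=
  fun _ hp _ hq r hr => hp r (hr.trans hq)

theorem down_fand {φ ψ : Set P} (h : Down φ) (h' : Down ψ) : Down (fand φ ψ) :=
  fun _ hp _ hq => ⟨h _ hp.1 _ hq, h' _ hp.2 _ hq⟩

theorem down_fall {ι : Sort v} {φ : ι → Set P} (h : ∀ i, Down (φ i)) : Down (fall φ) :=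
  fun _ hp _ hq i => h i _ (hp i) _ hq

theorem down_fex {ι : Sort v} (φ : ι → Set P) : Down (fex φ) := down_fnot _

theorem down_fimp (φ ψ : Set P) : Down (fimp φ ψ) := down_fnot _

theorem down_meets (N : Set P) : Down (meets N) :=
  fun _ hp _ hq r hr => hp r (hr.trans hq)

theorem down_isFun {X : Type v} {Y : Type w} (R : X → Y → Set P) : Down (IsFun R) :=
  down_fand (down_fall fun _ => down_fex _)
    (down_fall fun _ => down_fall fun _ => down_fall fun _ => down_fimp _ _)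

theorem down_isInj {X : Type v} {Y : Type w} (R : X → Y → Set P) : Down (IsInj R) :=
  down_fall fun _ => down_fall fun _ => down_fall fun _ => down_fimp _ _

variable (P)

/-- Every function from `A` to a set of the ground model which belongs to the extension belongs
to the ground model. -/
def NoNewFunctions (A : Type u) : Prop :=
  ∀ (Y : Type u) (R : A → Y → Set P), ∀ p ∈ IsFun R, ∃ q ≤ p, ∃ f : A → Y,
    ∀ a, q ∈ meets (R a (f a))

/-- The relation `(|S|, |E|, |T|) → |I|` fails in the extension: there is a function `f` from `S`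
to the power set of `S` (the set of all `y ∈ f(x)` is named by `F x`) with `x ∉ f(x)` for every
`x`, such that for every `X ⊆ S` with at least `|E|` elements the set of all `y` lying in `f(x)`
for every `x ∈ X` does not have at least `|T|` elements, and no subset `H` of `S` with at least
`|I|` elements is free. -/
def NotArrow (S E T I : Type u) : Set P :=
  fex fun F : S → S → Set P =>
    fand (fall fun x : S => fnot (meets (F x x)))
      (fand
        (fall fun X : S → Set P => fimp (AtLeast E fun x => meets (X x))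
          (fnot (AtLeast T fun y => fall fun x => fimp (meets (X x)) (meets (F x y)))))
        (fall fun H : S → Set P => fimp (AtLeast I fun x => meets (H x))
          (fnot (fall fun x => fall fun y =>
            fimp (fand (fand (meets (H x)) (meets (H y))) (fground (x ≠ y)))
              (fnot (meets (F x y)))))))

end

variable {M : Type u} [LinearOrder M] [OrderBot M] {lam : Cardinal.{u}} {c : M → Cardinal.{u}}

/-- deciding the values of a function defined on a set of size at most `lam` -/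
theorem decide_fun [WellFoundedLT M] (hS : Setup lam c) {A : Type u} (hA : #A ≤ lam)
    {Y : Type v} (R : A → Y → Set (Cond lam c)) (p : Cond lam c) (hp : p ∈ IsFun R) :
    ∃ q ≤ p, ∃ f : A → Y, ∀ a, q ∈ meets (R a (f a)) := by
  obtain ⟨q, hq, h1⟩ := meet_many hS hA (fun a => {t | ∃ y, t ∈ meets (R a y)})
    (fun n t ⟨a, ha⟩ t' ht' => ⟨a, down_meets _ _ ha _ ht'⟩) p (by
      intro n t ht
      obtain ⟨t', ht', a, ha⟩ := mem_fex.1 (hp.1 n) t ht
      exact ⟨t', ht', a, ha⟩)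
  choose f hf using h1
  exact ⟨q, hq, f, hf⟩

theorem exists_longer [WellFoundedLT M] (hS : Setup lam c) (a : Lam lam) :
    ∀ p : Cond lam c, ∃ q ≤ p, a ≤ q.top := by
  induction a using (wellFounded_lt (α := Lam lam)).induction with
  | _ a ih =>
    intro p
    obtain ⟨q, hq, h1⟩ := meet_many hS (mk_Iio_le a) (fun a' : Iio a => {t : Cond lam c | a'.1 ≤ t.top})
      (fun a' t ht t' ht' => le_trans (show a'.1 ≤ t.top from ht) ht'.1) p
      (fun a' r _ => ih a'.1 a'.2 r)
    obtain ⟨r, hr, hr', _⟩ := one_more hS q q le_rfl ∅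
    refine ⟨r, hr.trans hq, ?_⟩
    by_contra hc
    exact absurd (h1 ⟨r.top, not_le.1 hc⟩) (not_le.2 hr')

/-- the generic set mapping: `b ∈ f(a)` -/
def gen (a b : Lam lam) : Set (Cond lam c) := {p | a ≤ p.top ∧ b < a ∧ ∀ n, b ∉ (p.x a).N n}

theorem mem_meets_gen {a b : Lam lam} {p : Cond lam c} (ha : a ≤ p.top) (hb : b < a)
    (hn : ∀ n, b ∉ (p.x a).N n) : p ∈ meets (gen a b) :=
  fun q hq => ⟨q, le_rfl, p, ⟨ha, hb, hn⟩, hq⟩

theorem not_mem_meets_gen {a b : Lam lam} {p : Cond lam c} (ha : a ≤ p.top) {n : M}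
    (hn : b ∈ (p.x a).N n) : p ∉ meets (gen a b) := by
  intro h
  obtain ⟨r, hr, s, hs, hrs⟩ := h p le_rfl
  apply hs.2.2 n
  rw [← hrs.2 a hs.1, hr.2 a ha]
  exact hn

theorem forced {μ : Cardinal.{u}} [WellFoundedLT M] (hS : Setup lam c) (hμ : ℵ₀ ≤ μ)
    (hμl : Order.succ μ ≤ lam) (hM : #M = μ)
    (hM' : ∀ m : M, #(Iio m) < μ) (hpow : ∀ κ < μ, 2 ^ κ ≤ μ) (p : Cond lam c) :
    p ∈ NotArrow (P := Cond lam c) (Lam lam) (Lam lam) lam.ord.ToType
      (Order.succ μ).ord.ToType := by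
  classical
  refine mem_fex.2 fun q _ => ⟨q, le_rfl, gen, ?_, ?_, ?_⟩
  · intro x r _ h
    obtain ⟨_, _, s, hs, _⟩ := h r le_rfl
    exact lt_irrefl _ hs.2.1
  · intro X
    refine mem_fimp.2 fun r _ hr => ⟨r, le_rfl, ?_⟩
    intro t ht h
    obtain ⟨t1, ht1, R, ⟨hR1, hR2⟩, hR3⟩ := mem_fex.1 h t le_rfl
    obtain ⟨t2, ht2, f, hf⟩ := decide_fun hS (A := lam.ord.ToType) (by simp) R t1 hR1
    have hinj : Function.Injective f := by
      intro i i' hii
      obtain ⟨_, _, h3⟩ := mem_fimp.1 (hR2 i i' (f i)) t2 ht2 ⟨hf i, by rw [hii]; exact hf i'⟩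
      exact h3
    obtain ⟨ub, hub⟩ := exists_bound hS.inf_lam (ι := lam.ord.ToType) (by simp) f
    obtain ⟨t3, ht3, _, _, hA⟩ := one_more hS t2 t2 le_rfl (range f)
    obtain ⟨t4, ht4, G, ⟨hG1, hG2⟩, hG3⟩ := mem_fex.1 hr t3 (ht3.trans (ht2.trans (ht1.trans ht)))
    -- the set named by `X` is unbounded
    have hX : ∃ s ≤ t4, ∃ a, max t3.top ub < a ∧ s ∈ meets (X a) := by
      by_contra hc
      push Not at hc
      obtain ⟨s0, hs0, h1⟩ := meet_many hS (mk_Iic_le hS.inf_lam (max t3.top ub))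
        (fun y => {s | (∃ x, s ∈ meets (G x y.1)) ∨ ∀ x, s ∈ fnot (meets (G x y.1))})
        (by
          rintro y s (⟨x, hx⟩ | hx) s' hs'
          · exact Or.inl ⟨x, down_meets _ _ hx _ hs'⟩
          · exact Or.inr fun x => down_fnot _ _ (hx x) _ hs') t4
        (by
          intro y s _
          by_cases h2 : ∃ s' ≤ s, ∃ x, s' ∈ meets (G x y.1)
          · obtain ⟨s', hs', hx⟩ := h2
            exact ⟨s', hs', Or.inl hx⟩
          · push Not at h2
            exact ⟨s, le_rfl, Or.inr fun x s' hs' => h2 s' hs' x⟩)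
      have h2 : ∀ y : Iic (max t3.top ub), ∃ g : Lam lam, s0 ∈ meets (G g y.1) ∨
          ∀ x, s0 ∈ fnot (meets (G x y.1)) := by
        intro y
        rcases h1 y with ⟨x, hx⟩ | hx
        · exact ⟨x, Or.inl hx⟩
        · exact ⟨y.1, Or.inr hx⟩
      choose g hg using h2
      obtain ⟨x, hx⟩ := exists_bound hS.inf_lam (mk_Iic_le hS.inf_lam (max t3.top ub)) g
      obtain ⟨s1, hs1, y, hy⟩ := mem_fex.1 (hG1.1 x) s0 hs0
      obtain ⟨s2, hs2, hy2⟩ := mem_fimp.1 (hG3 x y) s1 (hs1.trans hs0) hy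
      have hyb : y ≤ max t3.top ub := by
        by_contra h3
        exact hc s2 (hs2.trans (hs1.trans hs0)) y (not_le.1 h3) hy2
      rcases hg ⟨y, hyb⟩ with h3 | h3
      · obtain ⟨_, _, h4⟩ := mem_fimp.1 (hG2 x (g ⟨y, hyb⟩) y) s1 (hs1.trans hs0)
          ⟨hy, down_meets _ _ h3 _ hs1⟩
        have h5 : x = g ⟨y, hyb⟩ := h4
        exact absurd (hx ⟨y, hyb⟩) (by rw [← h5]; exact lt_irrefl _)
      · exact h3 x s1 hs1 hy
    obtain ⟨s, hs, a, ha, hsa⟩ := hX
    obtain ⟨s', hs', ha'⟩ := exists_longer hS a s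
    have hs3 : s' ≤ t3 := hs'.trans (hs.trans ht4)
    have h3a : t3.top < a := (le_max_left _ _).trans_lt ha
    have hA' : (s'.x t3.top).A = range f := by
      rw [hs3.2 t3.top le_rfl]
      exact hA
    obtain ⟨n, b, hb, hbn⟩ := (s'.good a ha').n4 t3.top h3a
      (by
        rw [hA']
        rintro _ ⟨i, rfl⟩
        exact (hub i).trans ((le_max_right _ _).trans_lt ha))
      (by
        rw [hA', mk_range_eq f hinj]
        simp)
    rw [hA'] at hb
    obtain ⟨i, rfl⟩ := hb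
    obtain ⟨s1, hs1, h1⟩ := mem_fimp.1 (hR3 i (f i)) s' (hs3.trans (ht3.trans ht2))
      (down_meets _ _ (hf i) _ (hs3.trans ht3))
    obtain ⟨s2, hs2, h2⟩ := mem_fimp.1 (h1 a) s1 le_rfl
      (down_meets _ _ hsa _ (hs1.trans hs'))
    refine not_mem_meets_gen (a := a) (b := f i) (p := s2) (n := n) ?_ ?_ h2
    · exact ha'.trans (hs2.trans hs1).1
    · rw [(hs2.trans hs1).2 a ha']
      exact hbn
  · intro H
    refine mem_fimp.2 fun r _ hr => ⟨r, le_rfl, ?_⟩
    intro t ht hfree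
    obtain ⟨t1, ht1, R, ⟨hR1, hR2⟩, hR3⟩ := mem_fex.1 hr t ht
    obtain ⟨t2, ht2, f, hf⟩ := decide_fun hS (A := (Order.succ μ).ord.ToType) (by simpa using hμl)
      R t1 hR1
    have hinj : Function.Injective f := by
      intro i i' hii
      obtain ⟨_, _, h3⟩ := mem_fimp.1 (hR2 i i' (f i)) t2 ht2 ⟨hf i, by rw [hii]; exact hf i'⟩
      exact h3
    obtain ⟨ub, hub⟩ := exists_bound hS.inf_lam (ι := (Order.succ μ).ord.ToType)
      (by simpa using hμl) f
    obtain ⟨t3, ht3, h3⟩ := exists_longer hS ub t2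
    obtain ⟨a, ⟨i, rfl⟩, b, ⟨j, rfl⟩, hab, hn⟩ := exists_not_adj hμ hM hM' hpow t3 (range f)
      (by
        rintro _ ⟨i, rfl⟩
        exact (hub i).le.trans h3)
      (by
        rw [mk_range_eq f hinj]
        simp)
    have h4 : t3 ∈ meets (gen (f j) (f i)) :=
      mem_meets_gen ((hub j).le.trans h3) hab hn
    obtain ⟨t4, ht4, h5⟩ := mem_fimp.1 (hR3 i (f i)) t3 (ht3.trans ht2)
      (down_meets _ _ (hf i) _ ht3)
    obtain ⟨t5, ht5, h6⟩ := mem_fimp.1 (hR3 j (f j)) t4 (ht4.trans (ht3.trans ht2))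
      (down_meets _ _ (hf j) _ (ht4.trans ht3))
    obtain ⟨t6, ht6, h7⟩ := mem_fimp.1 (hfree (f j) (f i)) t5
      (ht5.trans (ht4.trans (ht3.trans (ht2.trans ht1))))
      ⟨⟨h6, down_meets _ _ h5 _ ht5⟩, hab.ne'⟩
    exact h7 t6 le_rfl (down_meets _ _ h4 _ (ht6.trans (ht5.trans ht4)))

end

section

/-- The relation `(κ, η, θ) → ι`. -/
def Arrow (κ η θ ι : Cardinal.{u}) : Prop :=
  ∀ S : Type u, #S = κ → ∀ f : S → Set S, (∀ x, x ∉ f x) →
    (∀ X : Set S, #X = η → #(⋂ x ∈ X, f x : Set S) < θ) →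
    ∃ H : Set S, #H = ι ∧ ∀ x ∈ H, ∀ y ∈ H, x ≠ y → y ∉ f x

variable {M : Type u} [LinearOrder M] [OrderBot M] {lam : Cardinal.{u}} {c : M → Cardinal.{u}}

theorem nonempty_cond (hS : Setup lam c) : Nonempty (Cond lam c) := by
  obtain ⟨b0, _⟩ := exists_bound hS.inf_lam (ι := PUnit.{u+1})
      (by rw [mk_punit]; exact one_le_aleph0.trans hS.inf_lam)
      (fun _ => Classical.choice (mk_ne_zero_iff.1 (by
        rw [mk_Lam]; exact (aleph0_pos.trans_le (hS.inf_lam.trans (Order.le_succ _))).ne')))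
  obtain ⟨b, _, hb⟩ := (wellFounded_lt (α := Lam lam)).has_min Set.univ ⟨b0, trivial⟩
  have hb' : ∀ a, ¬ a < b := fun a => hb a trivial
  obtain ⟨q, _⟩ := exists_cond hS (fun _ => ⟨fun _ => ⊥, ∅, fun _ => ∅⟩) b
    (fun a ha => absurd ha (hb' a)) (fun _ => ⊥)
    (by
      intro n
      have : {a : Lam lam | a < b ∧ (⊥ : M) ≤ n} = ∅ := by
        ext a
        simp [hb' a]
      rw [this]
      simp)
    (fun a g _ h => absurd h (hb' g)) (fun a g _ h => absurd h (hb' g)) ∅
  exact ⟨q⟩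

/-- given a function `d` and an enumeration, the whole construction can be carried out -/
theorem exists_total (hS : Setup lam c) (d : Lam lam → Lam lam → M)
    (hD1 : ∀ b n, #{a | a < b ∧ d b a ≤ n} ≤ c n)
    (hD2 : ∀ a g b, a < g → g < b → d g a ≤ max (d b a) (d b g))
    (hD3 : ∀ a g b, a < g → g < b → d b a ≤ max (d g a) (d b g))
    (A : Lam lam → Set (Lam lam)) :
    ∃ x : Lam lam → Dat (Lam lam) M, ∀ b, Good c x b ∧ (x b).A = A b := by
  classical
  obtain ⟨F, hF⟩ := exists_rec (I := Lam lam) (X := Dat (Lam lam) M)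
    (fun b f y => ∃ x : Lam lam → Dat (Lam lam) M, (∀ a (h : a < b), x a = f a h) ∧ x b = y ∧
      Good c x b ∧ y.A = A b ∧ ∀ a < b, y.d a = d b a) (by
    intro b f ih
    let x0 : Lam lam → Dat (Lam lam) M := fun a =>
      if h : a < b then f a h else ⟨fun _ => ⊥, ∅, fun _ => ∅⟩
    have hx0 : ∀ a (h : a < b), x0 a = f a h := fun a h => dif_pos h
    have hg : ∀ a < b, Good c x0 a := by
      intro a ha
      obtain ⟨x, h1, h2, h3, _⟩ := ih a ha
      refine h3.congr fun g hg => ?_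
      rcases hg.eq_or_lt with rfl | h
      · rw [hx0 g ha, h2]
      · rw [hx0 g (h.trans ha), h1 g h]
    have hd0 : ∀ a < b, (x0 a).d a = ⊥ := fun a ha => (hg a ha).d0
    have hd : ∀ a g, a < g → g < b → (x0 g).d a = d g a := by
      intro a g hag hgb
      obtain ⟨x, h1, h2, h3, h4, h5⟩ := ih g hgb
      rw [hx0 g hgb]
      exact h5 a hag
    obtain ⟨y, hy1, hy2, hy3, hy4⟩ := attach hS x0 b hg (d b) (hD1 b)
      (by
        intro a g h1 h2
        rcases h1.eq_or_lt with rfl | h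
        · rw [hd0 a h2]
          exact bot_le
        · rw [hd a g h h2]
          exact hD2 a g b h h2)
      (by
        intro a g h1 h2
        rcases h1.eq_or_lt with rfl | h
        · exact le_max_right _ _
        · rw [hd a g h h2]
          exact hD3 a g b h h2) (A b)
    exact ⟨y b, y, fun a ha => (hy1 a ha).trans (hx0 a ha), rfl, hy2, hy3, hy4⟩)
  refine ⟨F, fun b => ?_⟩
  obtain ⟨x, h1, h2, h3, h4, _⟩ := hF b
  refine ⟨h3.congr fun g hg => ?_, h4⟩
  rcases hg.eq_or_lt with rfl | h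
  · exact h2.symm
  · exact (h1 g h).symm

theorem outright {μ : Cardinal.{u}} [WellFoundedLT M] (hS : Setup lam c) (hμ : ℵ₀ ≤ μ)
    (hμl : Order.succ μ ≤ lam) (hM : #M = μ)
    (hM' : ∀ m : M, #(Iio m) < μ) (hpow : ∀ κ < μ, 2 ^ κ ≤ μ)
    (h2 : 2 ^ lam = Order.succ lam) (d : Lam lam → Lam lam → M)
    (hD1 : ∀ b n, #{a | a < b ∧ d b a ≤ n} ≤ c n)
    (hD2 : ∀ a g b, a < g → g < b → d g a ≤ max (d b a) (d b g))
    (hD3 : ∀ a g b, a < g → g < b → d b a ≤ max (d g a) (d b g)) :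
    ¬ Arrow (Order.succ lam) (Order.succ lam) lam (Order.succ μ) := by
  classical
  -- an enumeration of the sets of size `lam`
  have henum : ∃ A : Lam lam → Set (Lam lam), ∀ B : Set (Lam lam), #B = lam → ∃ ξ, A ξ = B := by
    have hinf : Infinite (Lam lam) := infinite_iff.2 (by
      rw [mk_Lam]; exact hS.inf_lam.trans (Order.le_succ _))
    have h3 : #{B : Set (Lam lam) // #B ≤ lam} ≤ #(Lam lam) := by
      refine (mk_bounded_set_le_of_infinite (Lam lam) lam).trans ?_
      rw [mk_Lam, ← h2, ← power_mul, mul_eq_self hS.inf_lam]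
    obtain ⟨e⟩ := h3
    have hne : Nonempty {B : Set (Lam lam) // #B ≤ lam} := ⟨⟨∅, by simp⟩⟩
    refine ⟨fun ξ => (Function.invFun e ξ).1, fun B hB => ⟨e ⟨B, hB.le⟩, ?_⟩⟩
    exact congrArg Subtype.val (Function.leftInverse_invFun e.injective ⟨B, hB.le⟩)
  obtain ⟨A, hA⟩ := henum
  obtain ⟨x, hx⟩ := exists_total hS d hD1 hD2 hD3 A
  intro harr
  obtain ⟨H, hH1, hH2⟩ := harr (Lam lam) mk_Lam
    (fun b => {a | a < b ∧ ∀ n, a ∉ (x b).N n}) (fun a h => lt_irrefl _ h.1)
    (by
      intro X hX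
      by_contra hc
      rw [not_lt] at hc
      obtain ⟨B, hB1, hB2⟩ := (le_mk_iff_exists_subset).1 hc
      obtain ⟨ξ, hξ⟩ := hA B hB2
      obtain ⟨ub, hub⟩ := exists_bound hS.inf_lam (ι := B) hB2.le (fun b => b.1)
      obtain ⟨a, haX, ha⟩ : ∃ a ∈ X, max ξ ub < a := by
        by_contra hc'
        push Not at hc'
        have h3 : #X ≤ lam := (mk_le_mk_of_subset (show X ⊆ Iic (max ξ ub) from hc')).trans
          (mk_Iic_le hS.inf_lam _)
        rw [hX] at h3
        exact absurd h3 (not_le.2 (Order.lt_succ _))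
      obtain ⟨n, b, hb, hbn⟩ := (hx a).1.n4 ξ ((le_max_left _ _).trans_lt ha)
        (by
          rw [(hx ξ).2, hξ]
          intro b hb
          exact (hub ⟨b, hb⟩).trans ((le_max_right _ _).trans_lt ha))
        (by rw [(hx ξ).2, hξ, hB2])
      rw [(hx ξ).2, hξ] at hb
      have h3 := mem_iInter₂.1 (hB1 hb) a haX
      exact h3.2 n hbn)
  obtain ⟨ub, hub⟩ := exists_bound hS.inf_lam (ι := H) (by rw [hH1]; exact hμl) (fun b => b.1)
  obtain ⟨a, ha, b, hb, hab, hn⟩ := exists_not_adj hμ hM hM' hpow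
    (⟨ub, x, fun b _ => (hx b).1⟩ : Cond lam c) H (fun a ha => (hub ⟨a, ha⟩).le)
    (by rw [hH1]; exact Order.lt_succ _)
  exact hH2 b hb a ha hab.ne' ⟨hab, hn⟩

end

section

section
variable {P : Type u} [Preorder P]

/-- `φ if and only if ψ`. -/
def fiff (φ ψ : Set P) : Set P := fand (fimp φ ψ) (fimp ψ φ)

theorem fimp_of {φ ψ : Set P} {p : P} (h : ∀ q ≤ p, q ∈ φ → q ∈ ψ) : p ∈ fimp φ ψ :=
  mem_fimp.2 fun q hq h' => ⟨q, le_rfl, h q hq h'⟩

/-- decided equivalence -/
theorem fiff_of_decided {φ ψ : Set P} (hφ : Down φ) (hψ : Down ψ) {p : P}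
    (h : (p ∈ φ ∧ p ∈ ψ) ∨ (p ∈ fnot φ ∧ p ∈ fnot ψ)) : p ∈ fiff φ ψ := by
  rcases h with ⟨h1, h2⟩ | ⟨h1, h2⟩
  · exact ⟨fimp_of fun q hq _ => hψ _ h2 _ hq, fimp_of fun q hq _ => hφ _ h1 _ hq⟩
  · exact ⟨fimp_of fun q hq h => absurd h (h1 q hq), fimp_of fun q hq h => absurd h (h2 q hq)⟩

variable (P)

/-- `2 ^ |L| ≤ |S|` holds in the extension: some family of subsets of `L` indexed by `S` contains
every subset of `L`. -/
def PowLe (L S : Type u) : Set P :=
  fex fun E : S → L → Set P => fall fun x : L → Set P => fex fun a : S =>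
    fall fun n : L => fiff (meets (x n)) (meets (E a n))

end

variable {M : Type u} [LinearOrder M] [OrderBot M] {lam : Cardinal.{u}} {c : M → Cardinal.{u}}

theorem powLe [WellFoundedLT M] (hS : Setup lam c) (p : Cond lam c) :
    p ∈ PowLe (Cond lam c) lam.ord.ToType (Lam lam) := by
  classical
  have h0 : #(lam.ord.ToType) ≤ #(Lam lam) := by
    rw [mk_Lam]
    simpa using Order.le_succ lam
  obtain ⟨e⟩ := h0
  refine mem_fex.2 fun q _ => ⟨q, le_rfl, fun a n => {t | a ≤ t.top ∧ e n ∈ (t.x a).A}, fun x =>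
    mem_fex.2 fun r _ => ?_⟩
  obtain ⟨t, ht, h1⟩ := meet_many hS (ι := lam.ord.ToType) (by simp)
    (fun n => {s | s ∈ meets (x n) ∨ s ∈ fnot (meets (x n))})
    (by
      rintro n s (hs | hs) s' hs'
      · exact Or.inl (down_meets _ _ hs _ hs')
      · exact Or.inr (down_fnot _ _ hs _ hs')) r
    (by
      intro n s _
      by_cases h2 : ∃ s' ≤ s, s' ∈ meets (x n)
      · obtain ⟨s', hs', hx⟩ := h2
        exact ⟨s', hs', Or.inl hx⟩
      · push Not at h2
        exact ⟨s, le_rfl, Or.inr fun s' hs' => h2 s' hs'⟩)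
  obtain ⟨t', ht', _, _, hA⟩ := one_more hS t t le_rfl {b | ∃ n, b = e n ∧ t ∈ meets (x n)}
  refine ⟨t', ht'.trans ht, t'.top, fun n => fiff_of_decided (down_meets _) (down_meets _) ?_⟩
  rcases h1 n with h8 | h8
  · refine Or.inl ⟨down_meets _ _ h8 _ ht', fun s hs => ⟨s, le_rfl, t', ⟨le_rfl, ?_⟩, hs⟩⟩
    rw [hA]
    exact ⟨n, rfl, h8⟩
  · refine Or.inr ⟨down_fnot _ _ h8 _ ht', ?_⟩
    intro s hs h
    obtain ⟨s1, hs1, s2, ⟨hs2, hs3⟩, hs4⟩ := h s le_rfl
    rw [← hs4.2 t'.top hs2, (hs1.trans hs).2 t'.top le_rfl, hA] at hs3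
    obtain ⟨m, hm, h9⟩ := hs3
    have := e.injective hm
    subst this
    exact h8 t le_rfl h9

/-- There is a function `d` which attaches a level `d b a < cf λ` to every pair `a < b < λ⁺`, such
that for every `n < cf λ` the numbers of the `a < b` of level at most `n` are bounded below `λ`,
and `d` is subadditive. -/
def HasSubadditive (lam : Cardinal.{u}) : Prop :=
  ∃ (k : lam.ord.cof.ord.ToType → Cardinal.{u}) (d : Lam lam → Lam lam → lam.ord.cof.ord.ToType),
    (∀ n, k n < lam) ∧ (∀ b n, #{a | a < b ∧ d b a ≤ n} ≤ k n) ∧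
    (∀ a g b, a < g → g < b → d g a ≤ max (d b a) (d b g)) ∧
    (∀ a g b, a < g → g < b → d b a ≤ max (d g a) (d b g))

theorem cof_facts {lam : Cardinal.{u}} (h0 : ℵ₀ ≤ lam) (h1 : lam.ord.cof < lam) :
    ℵ₀ ≤ lam.ord.cof ∧ Order.succ lam.ord.cof ≤ lam ∧ #(lam.ord.cof.ord.ToType) = lam.ord.cof ∧
      (∀ m : lam.ord.cof.ord.ToType, #(Iio m) < lam.ord.cof) ∧
      Nonempty lam.ord.cof.ord.ToType := by
  have h2 : ℵ₀ ≤ lam.ord.cof := aleph0_le_cof_iff.2 (one_lt_cof_iff.2 (isSuccLimit_ord h0))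
  refine ⟨h2, Order.succ_le_of_lt h1, by simp, fun m => mk_Iio_ord_lt m, ?_⟩
  rw [← mk_ne_zero_iff, mk_toType, card_ord]
  exact (aleph0_pos.trans_le h2).ne'

/-- the main theorem on the forced failure -/
theorem exists_forcing (lam : Cardinal.{u}) (h0 : ℵ₀ ≤ lam) (h1 : lam.ord.cof < lam)
    (h2 : ∀ κ < lam.ord.cof, 2 ^ κ ≤ lam.ord.cof) :
    ∃ (P : Type u) (_ : Preorder P), Nonempty P ∧ NoNewFunctions P lam.ord.ToType ∧
      (∀ p : P, p ∈ PowLe P lam.ord.ToType (Order.succ lam).ord.ToType) ∧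
      ∀ p : P, p ∈ NotArrow P (Order.succ lam).ord.ToType (Order.succ lam).ord.ToType
        lam.ord.ToType (Order.succ lam.ord.cof).ord.ToType := by
  obtain ⟨c, hS⟩ := exists_setup lam h0 h1
  obtain ⟨hμ, hμl, hM, hM', hne⟩ := cof_facts h0 h1
  let _ : OrderBot lam.ord.cof.ord.ToType := WellFoundedLT.toOrderBot _
  refine ⟨Cond lam c, inferInstance, nonempty_cond hS, ?_, powLe hS,
    forced hS hμ hμl hM hM' h2⟩
  intro Y R p hp
  exact decide_fun hS (by simp) R p hp

/-- the main theorem on the failure under a combinatorial hypothesis -/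
theorem not_arrow (lam : Cardinal.{u}) (h0 : ℵ₀ ≤ lam) (h1 : lam.ord.cof < lam)
    (h2 : ∀ κ < lam.ord.cof, 2 ^ κ ≤ lam.ord.cof) (h3 : 2 ^ lam = Order.succ lam)
    (h4 : HasSubadditive lam) :
    ¬ Arrow (Order.succ lam) (Order.succ lam) lam (Order.succ lam.ord.cof) := by
  obtain ⟨c, hS⟩ := exists_setup lam h0 h1
  obtain ⟨hμ, hμl, hM, hM', hne⟩ := cof_facts h0 h1
  obtain ⟨k, d, hk, hd1, hd2, hd3⟩ := h4
  let _ : OrderBot lam.ord.cof.ord.ToType := WellFoundedLT.toOrderBot _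
  have hS' : Setup lam (fun n => max (c n) (⨆ m : Iic n, k m.1)) := by
    have hb : ∀ n, BddAbove (range fun m : Iic n => k m.1) := fun n => bddAbove_of_small
    refine ⟨fun n => (hS.inf n).trans (le_max_left _ _), ?_, ?_, ?_, hS.lim⟩
    · intro a b hab
      refine max_le_max (hS.mono hab) ?_
      exact ciSup_le' fun m => le_ciSup (hb b) ⟨m.1, (show m.1 ≤ a from m.2).trans hab⟩
    · intro n
      refine max_lt (hS.lt n) ?_
      refine iSup_lt_of_lt_cof_ord ?_ fun m => hk m.1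
      have : Iic n = insert n (Iio n) := by
        ext x
        simp [le_iff_eq_or_lt]
      rw [this]
      exact (mk_insert_le).trans_lt (add_lt_of_lt hμ (hM' n) (one_lt_aleph0.trans_le hμ))
    · intro ν hν
      obtain ⟨n, hn⟩ := hS.cof ν hν
      exact ⟨n, hn.trans (le_max_left _ _)⟩
  refine outright hS' hμ hμl hM hM' h2 h3 d (fun b n => ?_) hd2 hd3
  refine (hd1 b n).trans (le_trans ?_ (le_max_right _ _))
  exact le_ciSup (f := fun m : Iic n => k m.1) bddAbove_of_small ⟨n, mem_Iic.2 le_rfl⟩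

theorem pow_le_of_cof {lam : Cardinal.{u}} (h : lam.ord.cof = ℵ₀) :
    ∀ κ < lam.ord.cof, 2 ^ κ ≤ lam.ord.cof := by
  intro κ hκ
  rw [h] at hκ ⊢
  obtain ⟨n, rfl⟩ := lt_aleph0.1 hκ
  exact (power_lt_aleph0 ofNat_lt_aleph0 natCast_lt_aleph0).le

end

end Pool.Agent.Helper72.SetMap
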